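import Pool.Agent.N91.LC.Defs

set_option autoImplicit false

namespace Pool.Agent.N91.LC

open Real

/-! ### numerical facts on the constants -/

theorem GG_sq : GG ^ 2 = 1 / 2 := by unfold GG; rw [Real.sq_sqrt (by norm_num)]
theorem GG_pos : 0 < GG := by unfold GG; positivity
theorem GG_lt : GG < 0.7072 := by
  have h1 := GG_sq; have h2 := GG_pos
  nlinarith
theorem GG_gt : 0.7071 < GG := by
  have h1 := GG_sq; have h2 := GG_pos
  nlinarith

theorem RR_eq : RR = th GG ell := by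
  unfold RR th
  rw [GG_sq]
  norm_num

theorem exp_RR : exp (2 * RR) = (3 / 2) * exp (2 * ell) - 1 / 2 := by
  rw [RR_eq, exp_th ell_pos.le, GG_sq]; norm_num

/-- quadratic and cubic bounds for exp -/
theorem exp_lower (x : ℝ) (hx : 0 ≤ x) : 1 + x + x ^ 2 / 2 ≤ exp x := Real.quadratic_le_exp_of_nonneg hx

theorem exp_upper {x : ℝ} (hx : 0 ≤ x) (hx1 : x ≤ 1) : exp x ≤ 1 + x + x ^ 2 := by
  have h := Real.abs_exp_sub_one_sub_id_le (x := x) (by rw [abs_of_nonneg hx]; exact hx1)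
  have := (abs_le.1 h).2
  linarith

/-- sharper -/
theorem exp_upper' {x : ℝ} (hx : 0 ≤ x) (hx1 : x ≤ 1 / 2) : exp x ≤ 1 + x + x ^ 2 / 2 + x ^ 3 := by
  have h := Real.exp_bound' hx (by linarith) (n := 3) (by norm_num)
  norm_num [Finset.sum_range_succ, Nat.factorial] at h
  nlinarith [pow_nonneg hx 3]

theorem exp_2ell_lo : (1.0202 : ℝ) ≤ exp (2 * ell) := by
  have := exp_lower (2 * ell) (by unfold ell; norm_num)
  unfold ell at *
  norm_num at *
  linarith

theorem exp_2ell_hi : exp (2 * ell) ≤ (1.020209 : ℝ) := by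
  have := exp_upper' (x := 2 * ell) (by unfold ell; norm_num) (by unfold ell; norm_num)
  unfold ell at *
  norm_num at *
  linarith

theorem RR_hi : RR ≤ 0.01494 := by
  have h1 := exp_RR
  have h2 := exp_2ell_hi
  have h3 := exp_lower (2 * 0.01494) (by norm_num)
  by_contra hcon
  push Not at hcon
  have h4 : exp (2 * 0.01494) < exp (2 * RR) := exp_lt_exp.2 (by linarith)
  have h5 : (1:ℝ) + 2 * 0.01494 + (2 * 0.01494) ^ 2 / 2 > 1.030326 := by norm_num
  linarith

theorem RR_lo : 0.01491 ≤ RR := by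
  have h1 := exp_RR
  have h2 := exp_2ell_lo
  have h3 := exp_upper' (x := 2 * 0.01491) (by norm_num) (by norm_num)
  by_contra hcon
  push Not at hcon
  have h4 : exp (2 * RR) < exp (2 * 0.01491) := exp_lt_exp.2 (by linarith)
  have h5 : (1:ℝ) + 2 * 0.01491 + (2 * 0.01491) ^ 2 / 2 + (2 * 0.01491) ^ 3 < 1.0303 := by norm_num
  linarith

theorem binf_lo : 0.00491 ≤ binf := by unfold binf ell; have := RR_lo; norm_num at *; linarith
theorem binf_hi : binf ≤ 0.00494 := by unfold binf ell; have := RR_hi; norm_num at *; linarith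

/-! ### ok points -/

theorem Pt.ok.b0 {x : Pt} (h : x.ok) : 0 ≤ x.b := h.1
theorem Pt.ok.b1 {x : Pt} (h : x.ok) : x.b ≤ ell := h.2.1
theorem Pt.ok.v0 {x : Pt} (h : x.ok) : 0 ≤ x.v := h.2.2.1
theorem Pt.ok.v1 {x : Pt} (h : x.ok) : x.v ≤ p0 := h.2.2.2.1
theorem Pt.ok.g0 {x : Pt} (h : x.ok) : 0 ≤ x.g := h.2.2.2.2.1
theorem Pt.ok.g1 {x : Pt} (h : x.ok) : x.g ≤ GG := h.2.2.2.2.2.1
theorem Pt.ok.comb {x : Pt} (h : x.ok) : x.b = 0 ∨ x.v = 0 ∨ ∃ n : ℕ, x.v = pp n := h.2.2.2.2.2.2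
theorem Pt.ok.eb {x : Pt} (h : x.ok) : 0 ≤ ell - x.b := by linarith [h.b1]

theorem en_ok (n : ℕ) : (en n).ok := by
  refine ⟨ell_pos.le, le_rfl, (pp_pos n).le, pp_le n, le_rfl, GG_pos.le, Or.inr (Or.inr ⟨n, rfl⟩)⟩

theorem gam_g_sq {q : ℝ} (hq : 0 ≤ q) : (gam q).g ^ 2 = exp (2 * q) - 1 := by
  unfold gam
  rw [Real.sq_sqrt]
  linarith [one_le_exp (show 0 ≤ 2 * q by linarith)]

theorem gam_g_nonneg (q : ℝ) : 0 ≤ (gam q).g := Real.sqrt_nonneg _

theorem exp_q_hi {q : ℝ} (hq : 0 ≤ q) (hq' : q ≤ q0) : exp (2 * q) ≤ 1.0003 := by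
  have h := exp_upper (x := 2 * q) (by linarith) (by unfold q0 at hq'; linarith)
  unfold q0 at hq'
  nlinarith

theorem gam_ok {q : ℝ} (hq : 0 ≤ q) (hq' : q ≤ q0) : (gam q).ok := by
  have h1 := binf_lo
  have h2 := binf_hi
  have h3 := gam_g_sq hq
  have h4 := exp_q_hi hq hq'
  have h5 := gam_g_nonneg q
  refine ⟨?_, ?_, le_rfl, p0_pos.le, gam_g_nonneg q, ?_, Or.inr (Or.inl rfl)⟩
  · show 0 ≤ binf - q / 3
    unfold q0 at hq'; norm_num at *; linarith
  · show binf - q / 3 ≤ ell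
    unfold ell; norm_num at *; linarith
  · have := GG_gt
    nlinarith

theorem la_gam {q : ℝ} (hq : 0 ≤ q) : log (A (gam q).g) = q := by
  have h := A_sq (gam q).g
  rw [gam_g_sq hq] at h
  have h2 : A (gam q).g ^ 2 = exp q ^ 2 := by
    rw [h, ← exp_nat_mul]; push_cast; ring
  have h3 : A (gam q).g = exp q := by
    exact (pow_left_inj₀ (A_pos _).le (exp_pos _).le (by norm_num)).1 h2
  rw [h3, log_exp]

/-! ### E, Lipschitz under strip and hub -/

theorem EE_nonneg {x : Pt} (hx : x.ok) : 0 ≤ EE x := th_nonneg hx.eb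

theorem EE_ge {x : Pt} (hx : x.ok) : ell - x.b ≤ EE x := th_ge hx.eb

/-- strip or hub -/
def Adm1 (x y : Pt) (c : ℝ) : Prop := Strip x y c ∨ Hub x y c

theorem Adm1.thle {x y : Pt} {c D D' : ℝ} (hx : 0 ≤ x.g) (hy : 0 ≤ y.g) (hD : 0 ≤ D) (hD' : 0 ≤ D')
    (h : Adm1 x y c) (hDD : D ≤ D' + sd x y) : th x.g D ≤ th y.g D' + c := by
  rcases h with h | h
  · exact th_strip hx hy hD hD' h hDD
  · exact th_hub hD hD' h hDD

theorem Adm1.EEv {x y : Pt} {c : ℝ} (hx : x.ok) (hy : y.ok) (h : Adm1 x y c) :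
    EE x + |x.v - y.v| ≤ EE y + c := by
  have h1 : EE x + |x.v - y.v| ≤ th x.g (ell - x.b + |x.v - y.v|) := th_add hx.eb (abs_nonneg _)
  have h2 : th x.g (ell - x.b + |x.v - y.v|) ≤ EE y + c := by
    apply h.thle hx.g0 hy.g0 (by have := hx.eb; positivity) hy.eb
    unfold sd
    linarith [neg_abs_le (x.b - y.b), le_abs_self (x.b - y.b)]
  linarith

theorem Adm1.nonneg {x y : Pt} {c : ℝ} (hx : 0 ≤ x.g) (hy : 0 ≤ y.g) (h : Adm1 x y c) : 0 ≤ c := by
  rcases h with h | h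
  · exact h.nonneg hx hy
  · exact h.nonneg

theorem Adm1.sd_le {x y : Pt} {c : ℝ} (hx : 0 ≤ x.g) (hy : 0 ≤ y.g) (h : Adm1 x y c) :
    sd x y ≤ c := by
  rcases h with h | h
  · exact h.sd_le hx hy
  · unfold Hub at h; linarith [log_A_nonneg x.g, log_A_nonneg y.g]

theorem Adm1.la {x y : Pt} {c : ℝ} (hy : 0 ≤ y.g) (h : Adm1 x y c) :
    log (A x.g) ≤ c + log (A y.g) := by
  rcases h with h | h
  · have := h.la hy; linarith [sd_nonneg x y]
  · unfold Hub at h; linarith [sd_nonneg x y, log_A_nonneg y.g]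

theorem Adm1.symm {x y : Pt} {c : ℝ} (h : Adm1 x y c) : Adm1 y x c := by
  rcases h with h | h
  · exact Or.inl h.symm
  · right; unfold Hub at *; rw [sd_comm]; linarith

theorem Adm1.tri {x y z : Pt} {c c' : ℝ} (hx : 0 ≤ x.g) (hy : 0 ≤ y.g)
    (h : Adm1 x y c) (h' : Adm1 y z c') : Adm1 x z (c + c') := by
  rcases h with h | h <;> rcases h' with h' | h'
  · exact Or.inl (h.tri hx hy h')
  · right
    have := h.la hy
    unfold Hub at *
    linarith [sd_tri x y z]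
  · right
    have := h'.symm.la hy
    unfold Hub at *
    rw [sd_comm] at this
    linarith [sd_tri x y z]
  · right
    unfold Hub at *
    linarith [sd_tri x y z, log_A_nonneg y.g]

theorem Adm3.cases {x y : Pt} {c : ℝ} (h : Adm3 x y c) : Adm1 x y c ∨ Exit x y c := by
  rcases h with h | h | h
  · exact Or.inl (Or.inl h)
  · exact Or.inl (Or.inr h)
  · exact Or.inr h

theorem Adm1.to3 {x y : Pt} {c : ℝ} (h : Adm1 x y c) : Adm3 x y c := by
  rcases h with h | h
  · exact Or.inl h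
  · exact Or.inr (Or.inl h)

theorem Exit.to3 {x y : Pt} {c : ℝ} (h : Exit x y c) : Adm3 x y c := Or.inr (Or.inr h)

theorem Exit.symm {x y : Pt} {c : ℝ} (h : Exit x y c) : Exit y x c := by
  unfold Exit at *; rw [abs_sub_comm]; linarith

theorem Adm3.refl (x : Pt) : Adm3 x x 0 := Or.inl (Strip.refl x)

theorem Adm3.symm {x y : Pt} {c : ℝ} (h : Adm3 x y c) : Adm3 y x c := by
  rcases h.cases with h | h
  · exact h.symm.to3
  · exact h.symm.to3

theorem Adm3.mono {x y : Pt} {c c' : ℝ} (hx : 0 ≤ x.g) (hy : 0 ≤ y.g) (h : Adm3 x y c)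
    (hc : c ≤ c') : Adm3 x y c' := by
  rcases h with h | h | h
  · exact Or.inl (h.mono hx hy hc)
  · right; left; unfold Hub at *; linarith
  · right; right; unfold Exit at *; linarith

theorem Adm3.tri {x y z : Pt} {c c' : ℝ} (hx : x.ok) (hy : y.ok) (hz : z.ok)
    (h : Adm3 x y c) (h' : Adm3 y z c') : Adm3 x z (c + c') := by
  rcases h.cases with h | h <;> rcases h'.cases with h' | h'
  · exact (h.tri hx.g0 hy.g0 h').to3
  · apply Exit.to3
    have := h.EEv hx hy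
    unfold Exit at *
    linarith [abs_sub_le x.v y.v z.v]
  · apply Exit.to3
    have := h'.symm.EEv hz hy
    unfold Exit at *
    rw [abs_sub_comm] at this
    linarith [abs_sub_le x.v y.v z.v]
  · apply Exit.to3
    unfold Exit at *
    linarith [abs_sub_le x.v y.v z.v, EE_nonneg hy]

theorem Adm3.nonneg {x y : Pt} {c : ℝ} (hx : x.ok) (hy : y.ok) (h : Adm3 x y c) : 0 ≤ c := by
  rcases h.cases with h | h
  · exact h.nonneg hx.g0 hy.g0
  · unfold Exit at h; linarith [EE_nonneg hx, EE_nonneg hy, abs_nonneg (x.v - y.v)]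

theorem Adm3.sd_le {x y : Pt} {c : ℝ} (hx : x.ok) (hy : y.ok) (h : Adm3 x y c) : sd x y ≤ c := by
  rcases h.cases with h | h
  · exact h.sd_le hx.g0 hy.g0
  · unfold Exit at h
    have h1 := EE_ge hx
    have h2 := EE_ge hy
    unfold sd
    have : |x.b - y.b| ≤ (ell - x.b) + (ell - y.b) := by
      rw [abs_le]; constructor <;> linarith [hx.b1, hy.b1]
    linarith

theorem Adm3.EEle {x y : Pt} {c : ℝ} (hx : x.ok) (hy : y.ok) (h : Adm3 x y c) :
    EE x ≤ EE y + c := by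
  rcases h.cases with h | h
  · linarith [h.EEv hx hy, abs_nonneg (x.v - y.v)]
  · unfold Exit at h; linarith [EE_nonneg hy, abs_nonneg (x.v - y.v)]

noncomputable def QQ (x : Pt) : ℝ := min (log (A x.g)) (EE x)

theorem Adm3.QQle {x y : Pt} {c : ℝ} (hx : x.ok) (hy : y.ok) (h : Adm3 x y c) :
    QQ x ≤ QQ y + c := by
  have hE := h.EEle hx hy
  have hc := h.nonneg hx hy
  rcases h.cases with h | h
  · have := h.la hy.g0
    unfold LC.QQ
    rw [← min_add_add_right]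
    apply min_le_min <;> linarith
  · unfold LC.QQ
    have h1 : min (log (A x.g)) (LC.EE x) ≤ c := by
      apply (min_le_right _ _).trans
      unfold Exit at h; linarith [EE_nonneg hy, abs_nonneg (x.v - y.v)]
    have h2 : 0 ≤ min (log (A y.g)) (LC.EE y) := le_min (log_A_nonneg _) (EE_nonneg hy)
    linarith

theorem gam_EE_ge {q : ℝ} (hq : 0 ≤ q) (hq' : q ≤ q0) : 0.005 ≤ EE (gam q) := by
  have h1 := EE_ge (gam_ok hq hq')
  have h2 : (gam q).b = binf - q / 3 := rfl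
  have := binf_hi
  rw [h2] at h1
  unfold ell at h1
  norm_num at *
  linarith

theorem QQ_gam {q : ℝ} (hq : 0 ≤ q) (hq' : q ≤ q0) : QQ (gam q) = q := by
  unfold QQ
  rw [la_gam hq]
  apply min_eq_left
  have := gam_EE_ge hq hq'
  unfold q0 at hq'
  norm_num at *
  linarith

theorem gam_short {q q' c : ℝ} (hq : 0 ≤ q) (hq' : q ≤ q0) (hr : 0 ≤ q') (hr' : q' ≤ q0)
    (h : Adm3 (gam q) (gam q') c) : |q - q'| ≤ c := by
  have h1 := h.QQle (gam_ok hq hq') (gam_ok hr hr')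
  have h2 := h.symm.QQle (gam_ok hr hr') (gam_ok hq hq')
  rw [QQ_gam hq hq', QQ_gam hr hr'] at h1 h2
  rw [abs_le]; constructor <;> linarith

/-! ### Adm4 -/

theorem Adm4.refl (x : Pt) : Adm4 x x 0 := Or.inl (Adm3.refl x)

theorem Adm4.symm {x y : Pt} {c : ℝ} (h : Adm4 x y c) : Adm4 y x c := by
  rcases h with h | ⟨q, q', c1, c2, hq, hq', h1, h2, h3⟩
  · exact Or.inl h.symm
  · exact Or.inr ⟨q', q, c2, c1, hq', hq, h2.symm, h1.symm, by rw [abs_sub_comm]; linarith⟩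

theorem Adm4.mono {x y : Pt} {c c' : ℝ} (hx : 0 ≤ x.g) (hy : 0 ≤ y.g) (h : Adm4 x y c)
    (hc : c ≤ c') : Adm4 x y c' := by
  rcases h with h | ⟨q, q', c1, c2, hq, hq', h1, h2, h3⟩
  · exact Or.inl (h.mono hx hy hc)
  · exact Or.inr ⟨q, q', c1, c2, hq, hq', h1, h2, h3.trans hc⟩

theorem Adm4.nonneg {x y : Pt} {c : ℝ} (hx : x.ok) (hy : y.ok) (h : Adm4 x y c) : 0 ≤ c := by
  rcases h with h | ⟨q, q', c1, c2, hq, hq', h1, h2, h3⟩
  · exact h.nonneg hx hy
  · have := h1.nonneg hx (gam_ok hq.1 hq.2)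
    have := h2.nonneg (gam_ok hq'.1 hq'.2) hy
    linarith [abs_nonneg (q - q')]

theorem Adm4.tri {x y z : Pt} {c c' : ℝ} (hx : x.ok) (hy : y.ok) (hz : z.ok)
    (h : Adm4 x y c) (h' : Adm4 y z c') : Adm4 x z (c + c') := by
  rcases h with h | ⟨q, q', c1, c2, hq, hq', h1, h2, h3⟩ <;>
    rcases h' with h' | ⟨r, r', d1, d2, hr, hr', k1, k2, k3⟩
  · exact Or.inl (h.tri hx hy hz h')
  · exact Or.inr ⟨r, r', c + d1, d2, hr, hr', h.tri hx hy (gam_ok hr.1 hr.2) k1, k2, by linarith⟩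
  · exact Or.inr ⟨q, q', c1, c2 + c', hq, hq', h1, h2.tri (gam_ok hq'.1 hq'.2) hy hz h', by linarith⟩
  · have h5 := gam_short hq'.1 hq'.2 hr.1 hr.2 (h2.tri (gam_ok hq'.1 hq'.2) hy (gam_ok hr.1 hr.2) k1)
    refine Or.inr ⟨q, r', c1, d2, hq, hr', h1, k2, ?_⟩
    have h6 := abs_sub_le q q' r'
    have h7 := abs_sub_le q' r r'
    linarith

/-- potentials on Adm4: a function that is 1-Lipschitz under Adm3 and along the fast lane -/
theorem Adm4.pot {φ : Pt → ℝ} (h3 : ∀ x y c, x.ok → y.ok → Adm3 x y c → φ x ≤ φ y + c)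
    (hg : ∀ q q', 0 ≤ q → q ≤ q0 → 0 ≤ q' → q' ≤ q0 → φ (gam q) ≤ φ (gam q') + |q - q'|)
    {x y : Pt} {c : ℝ} (hx : x.ok) (hy : y.ok) (h : Adm4 x y c) : φ x ≤ φ y + c := by
  rcases h with h | ⟨q, q', c1, c2, hq, hq', h1, h2, h3'⟩
  · exact h3 x y c hx hy h
  · have e1 := h3 _ _ _ hx (gam_ok hq.1 hq.2) h1
    have e2 := h3 _ _ _ (gam_ok hq'.1 hq'.2) hy h2
    have e3 := hg q q' hq.1 hq.2 hq'.1 hq'.2
    linarith

theorem gam_sd (q q' : ℝ) : sd (gam q) (gam q') = |q - q'| / 3 := by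
  unfold sd gam
  simp only [sub_self, abs_zero, add_zero]
  rw [show binf - q / 3 - (binf - q' / 3) = -((q - q') / 3) by ring, abs_neg, abs_div]
  norm_num

theorem Adm4.sd_le {x y : Pt} {c : ℝ} (hx : x.ok) (hy : y.ok) (h : Adm4 x y c) : sd x y ≤ c := by
  rcases h with h | ⟨q, q', c1, c2, hq, hq', h1, h2, h3'⟩
  · exact h.sd_le hx hy
  · have e1 := h1.sd_le hx (gam_ok hq.1 hq.2)
    have e2 := h2.sd_le (gam_ok hq'.1 hq'.2) hy
    have e3 := gam_sd q q'
    have e4 := sd_tri x (gam q) y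
    have e5 := sd_tri (gam q) (gam q') y
    linarith [abs_nonneg (q - q')]

theorem gam_EE_lip {q q' : ℝ} (hq : 0 ≤ q) (hq' : q ≤ q0) (hr : 0 ≤ q') (hr' : q' ≤ q0) :
    EE (gam q) ≤ EE (gam q') + |q - q'| := by
  have hb := binf_lo
  have hb' := binf_hi
  have E1 : ∀ r, 0 ≤ r → r ≤ q0 → exp (2 * EE (gam r)) =
      exp (2 * r) * (exp (2 * (ell - (binf - r / 3))) - 1) + 1 := by
    intro r h0 h1
    unfold EE
    rw [exp_th (gam_ok h0 h1).eb, gam_g_sq h0]
    show (1 + (exp (2 * r) - 1)) * exp (2 * (ell - (binf - r / 3))) - (exp (2 * r) - 1) = _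
    ring
  rcases le_total q q' with h | h
  · have h1 : exp (2 * EE (gam q)) ≤ exp (2 * EE (gam q')) := by
      rw [E1 q hq hq', E1 q' hr hr']
      have e1 : exp (2 * q) ≤ exp (2 * q') := exp_le_exp.2 (by linarith)
      have e2 : exp (2 * (ell - (binf - q / 3))) ≤ exp (2 * (ell - (binf - q' / 3))) :=
        exp_le_exp.2 (by linarith)
      have e3 : 1 ≤ exp (2 * (ell - (binf - q / 3))) :=
        one_le_exp (by unfold ell; norm_num at *; linarith)
      have e4 := exp_pos (2 * q)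
      nlinarith
    have := exp_le_exp.1 h1
    linarith [abs_nonneg (q - q')]
  · -- q' ≤ q
    have habs : |q - q'| = q - q' := abs_of_nonneg (by linarith)
    rw [habs]
    have h1 : exp (2 * EE (gam q)) ≤ exp (2 * (EE (gam q') + (q - q'))) := by
      rw [mul_add, exp_add, E1 q hq hq', E1 q' hr hr']
      set y := exp (2 * (q - q') / 3) with hy
      set u := exp (2 * q') with hu
      set w := exp (2 * (ell - (binf - q' / 3))) with hw
      have r1 : exp (2 * q) = u * y ^ 3 := by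
        rw [hu, hy, ← exp_nat_mul, ← exp_add]; congr 1; push_cast; ring
      have r2 : exp (2 * (q - q')) = y ^ 3 := by
        rw [hy, ← exp_nat_mul]; congr 1; push_cast; ring
      have r3 : exp (2 * (ell - (binf - q / 3))) = w * y := by
        rw [hw, hy, ← exp_add]; congr 1; ring
      rw [r1, r2, r3]
      have y1 : 1 ≤ y := one_le_exp (by linarith)
      have y2 : y ^ 3 ≤ 1.0003 := by
        rw [← r2]
        refine (exp_le_exp.2 ?_).trans (exp_q_hi hq hq')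
        linarith
      have u2 : u ≤ 1.0003 := exp_q_hi hr hr'
      have w2 : w ≤ 1.02 := by
        have : w ≤ exp (0.0104) := by
          apply exp_le_exp.2; unfold ell; unfold q0 at hr'; norm_num at *; linarith
        have h2 := exp_upper (x := 0.0104) (by norm_num) (by norm_num)
        norm_num at *
        linarith
      have u1 : 0 < u := exp_pos _
      have w1 : 0 < w := exp_pos _
      have m1 : u * w ≤ 1.03 := by nlinarith
      have m2 : u * w * y ^ 3 ≤ 3 := by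
        have : 0 < y ^ 3 := by positivity
        nlinarith
      have m3 : 0 ≤ (y - 1) * (y ^ 2 + y + 1 - u * w * y ^ 3) := by
        apply mul_nonneg (by linarith); nlinarith
      nlinarith
    have := exp_le_exp.1 h1
    linarith

theorem Adm4.EEle {x y : Pt} {c : ℝ} (hx : x.ok) (hy : y.ok) (h : Adm4 x y c) : EE x ≤ EE y + c :=
  Adm4.pot (φ := LC.EE) (fun _ _ _ hx hy h => h.EEle hx hy)
    (fun _ _ a b c d => gam_EE_lip a b c d) hx hy h

theorem Adm4.QQle {x y : Pt} {c : ℝ} (hx : x.ok) (hy : y.ok) (h : Adm4 x y c) : QQ x ≤ QQ y + c :=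
  Adm4.pot (φ := LC.QQ) (fun _ _ _ hx hy h => h.QQle hx hy)
    (fun q q' a b c d => by
      rw [QQ_gam a b, QQ_gam c d]; linarith [le_abs_self (q - q')]) hx hy h

end Pool.Agent.N91.LC
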