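import Pool.Agent.N91.LC.Path

set_option autoImplicit false

namespace Pool.Agent.N91.LC

open Real

/-- the function bounding the planar step -/
theorem phi_mono {m c c' : ℝ} (hc : 0 ≤ c) (h : c ≤ c') :
    (exp c - 1) / (1 + m ^ 2 * exp (-c)) ≤ (exp c' - 1) / (1 + m ^ 2 * exp (-c')) := by
  have h1 : exp c ≤ exp c' := exp_le_exp.2 h
  have h2 : exp (-c') ≤ exp (-c) := exp_le_exp.2 (by linarith)
  have h3 : 1 ≤ exp c := one_le_exp hc
  have h4 : 0 < exp (-c') := exp_pos _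
  apply div_le_div₀ (by linarith) (by linarith) (by positivity)
  nlinarith [sq_nonneg m]

/-- two point estimate in terms of the distance -/
theorem tp' (hTP : S_TP) {x y : X} {d : ℝ} (hd : dist x y ≤ d) (h1 : d < EE x.P) (h2 : d < EE y.P)
    (h3 : d < log (A x.P.g)) (h4 : d < log (A y.P.g)) (h5 : d < 1 / 1000) {m : ℝ} (hm : 0 < m)
    (hmx : m ≤ x.P.g) (hmy : m ≤ y.P.g) :
    sd x.P y.P ≤ (exp d - 1) / (1 + m ^ 2 * exp (-d)) ∧
    |log x.P.g - log y.P.g| ≤ (1 + exp (2 * d) / m ^ 2) * d := by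
  have hd0 : 0 ≤ d := dist_nonneg.trans hd
  have hmm : m ≤ min x.P.g y.P.g := le_min hmx hmy
  obtain ⟨e, he, hee⟩ : ∃ e, d < e ∧ ∀ c, d < c → c < e → (c < EE x.P ∧ c < EE y.P ∧ c < log (A x.P.g) ∧
      c < log (A y.P.g) ∧ c < 1 / 1000) := by
    refine ⟨min (min (min (EE x.P) (EE y.P)) (min (log (A x.P.g)) (log (A y.P.g)))) (1/1000), ?_, ?_⟩
    · simp only [lt_min_iff]; exact ⟨⟨⟨h1, h2⟩, ⟨h3, h4⟩⟩, h5⟩
    · intro c _ hc
      simp only [lt_min_iff] at hc
      exact ⟨hc.1.1.1, hc.1.1.2, hc.1.2.1, hc.1.2.2, hc.2⟩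
  have key : ∀ c, d < c → c < e →
      sd x.P y.P ≤ (exp c - 1) / (1 + m ^ 2 * exp (-c)) ∧
      |log x.P.g - log y.P.g| ≤ (1 + exp (2 * c) / m ^ 2) * c := by
    intro c hc hce
    obtain ⟨a1, a2, a3, a4, a5⟩ := hee c hc hce
    obtain ⟨b1, b2⟩ := hTP x y c (lt_of_le_of_lt hd hc) a1 a2 a3 a4 a5
    refine ⟨b1.trans ?_, b2 m hm hmm⟩
    apply div_le_div_of_nonneg_left
    · linarith [one_le_exp (hd0.trans hc.le)]
    · positivity
    · have : m ^ 2 ≤ (min x.P.g y.P.g) ^ 2 := pow_le_pow_left₀ hm.le hmm 2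
      nlinarith [exp_pos (-c)]
  have hev : ∀ᶠ c in nhdsWithin d (Set.Ioi d), d < c ∧ c < e := by
    have : Set.Ioo d e ∈ nhdsWithin d (Set.Ioi d) := Ioo_mem_nhdsGT he
    exact this
  constructor
  · have hcont : Filter.Tendsto (fun c => (exp c - 1) / (1 + m ^ 2 * exp (-c)))
        (nhdsWithin d (Set.Ioi d)) (nhds ((exp d - 1) / (1 + m ^ 2 * exp (-d)))) := by
      have : ContinuousAt (fun c => (exp c - 1) / (1 + m ^ 2 * exp (-c))) d := by
        apply ContinuousAt.div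
        · fun_prop
        · fun_prop
        · positivity
      exact this.tendsto.mono_left nhdsWithin_le_nhds
    exact ge_of_tendsto hcont (hev.mono (fun c hc => (key c hc.1 hc.2).1))
  · have hcont : Filter.Tendsto (fun c => (1 + exp (2 * c) / m ^ 2) * c)
        (nhdsWithin d (Set.Ioi d)) (nhds ((1 + exp (2 * d) / m ^ 2) * d)) := by
      have : ContinuousAt (fun c => (1 + exp (2 * c) / m ^ 2) * c) d := by fun_prop
      exact this.tendsto.mono_left nhdsWithin_le_nhds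
    exact ge_of_tendsto hcont (hev.mono (fun c hc => (key c hc.1 hc.2).2))

/-- rising costs: log A(g e^D) - log A(g) ≤ D g'^2/(1+g'^2), g' = g e^D -/
theorem rise {g D : ℝ} : log (A (g * exp D)) ≤
    log (A g) + D - D / (1 + (g * exp D) ^ 2) := by
  set g' := g * exp D with hg'
  set ρ := g' ^ 2 / (1 + g' ^ 2) with hρ
  have h0 : 0 ≤ ρ := by positivity
  have h1 : ρ ≤ 1 := by rw [hρ, div_le_one (by positivity)]; linarith [sq_nonneg g']
  have hb := rpow_one_add_le_one_add_mul_self (s := exp (-2 * D) - 1) (by linarith [exp_pos (-2 * D)]) h0 h1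
  rw [show 1 + (exp (-2 * D) - 1) = exp (-2 * D) by ring, ← Real.exp_mul] at hb
  -- e^{-2Dρ} ≤ 1 + ρ (e^{-2D} - 1)
  have hgg : g ^ 2 = g' ^ 2 * exp (-2 * D) := by
    rw [hg', mul_pow, mul_assoc, ← exp_nat_mul, ← exp_add]
    norm_num
  have h2 : (1 + g' ^ 2) * exp (-2 * D * ρ) ≤ 1 + g ^ 2 := by
    have : (1 + g' ^ 2) * (1 + ρ * (exp (-2 * D) - 1)) = 1 + g ^ 2 := by
      rw [hρ, hgg]; field_simp; ring
    rw [← this]
    gcongr
  have h3 : A g' ^ 2 * exp (-D * ρ) ^ 2 ≤ A g ^ 2 := by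
    rw [A_sq, A_sq, ← exp_nat_mul]
    have : ((2:ℕ):ℝ) * (-D * ρ) = -2 * D * ρ := by push_cast; ring
    rw [this]; exact h2
  have h4 : A g' * exp (-D * ρ) ≤ A g := by
    rw [← mul_pow] at h3
    exact (pow_le_pow_iff_left₀ (by have := A_pos g'; positivity) (A_pos g).le (by norm_num)).1 h3
  have h5 := log_le_log (by have := A_pos g'; positivity) h4
  rw [log_mul (A_pos g').ne' (exp_pos _).ne', log_exp] at h5
  have h6 : D / (1 + g' ^ 2) = D - D * ρ := by rw [hρ]; field_simp; ring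
  rw [h6]; linarith

/-- the rising move of the Lion is admissible -/
theorem rise_strip {P P' : Pt} {D : ℝ} (hD : 0 ≤ D) (h0 : 0 ≤ P.g) (hg : P'.g = P.g * exp D)
    (hs : sd P P' ≤ D / (1 + P'.g ^ 2)) : Strip P P' D := by
  have e1 : 1 ≤ exp D := one_le_exp hD
  have e2 := exp_pos D
  refine ⟨?_, ?_, ?_⟩
  · rw [hg]; nlinarith [mul_nonneg h0 (by nlinarith : 0 ≤ exp D * exp D - 1)]
  · rw [hg]; linarith
  · have h1 := rise (g := P.g) (D := D)
    rw [← hg] at h1
    have h2 : sd P P' + log (A P'.g) ≤ D + log (A P.g) := by linarith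
    have h3 : exp (sd P P') * A P'.g ≤ exp D * A P.g := by
      have := exp_le_exp.2 h2
      rw [exp_add, exp_add, exp_log (A_pos _), exp_log (A_pos _)] at this
      exact this
    have h4 : A P.g * A P'.g * exp (sd P P') ≤ exp D * A P.g ^ 2 := by
      have := mul_le_mul_of_nonneg_left h3 (A_pos P.g).le
      nlinarith
    rw [A_sq] at h4
    rw [hg] at *
    nlinarith

end Pool.Agent.N91.LC
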