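import Pool.Agent.N91.LC.Chase

set_option autoImplicit false

namespace Pool.Agent.N91.LC

open Real

/-- constants of the chase -/
noncomputable def KK (gw : ℝ) : ℝ := 3 + 5 / gw ^ 2
noncomputable def ep (gw : ℝ) : ℝ := gw ^ 2 / (10 * KK gw)

/-- margin of the Lion over the Christian path C at time τ -/
noncomputable def PC (gw ta : ℝ) (C : ℝ → X) (τ : ℝ) : ℝ :=
  min (log (C τ).P.g - (log gw + (τ - ta))) (EE (C τ).P)

theorem EE_le_RR {x : Pt} (hx : x.ok) : EE x ≤ RR := by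
  rw [RR_eq]
  unfold EE
  refine (th_mono_left hx.eb hx.g0 hx.g1).trans (th_mono_right hx.eb ?_)
  linarith [hx.b0]

theorem KK_ge {gw : ℝ} (h0 : 0 < gw) (h1 : gw ^ 2 ≤ 1 / 2) : 13 ≤ KK gw := by
  unfold KK
  have : 10 ≤ 5 / gw ^ 2 := by rw [le_div_iff₀ (by positivity)]; linarith
  linarith

theorem ep_pos {gw : ℝ} (h0 : 0 < gw) (h1 : gw ^ 2 ≤ 1 / 2) : 0 < ep gw := by
  have := KK_ge h0 h1
  unfold ep; positivity

theorem KK_ep {gw : ℝ} (h0 : 0 < gw) (h1 : gw ^ 2 ≤ 1 / 2) : KK gw * ep gw = gw ^ 2 / 10 := by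
  have := KK_ge h0 h1
  unfold ep
  field_simp

theorem ep_le {gw : ℝ} (h0 : 0 < gw) (h1 : gw ^ 2 ≤ 1 / 2) : ep gw ≤ gw ^ 2 / 130 := by
  have h := KK_ge h0 h1
  have h2 := KK_ep h0 h1
  have h3 := ep_pos h0 h1
  nlinarith

/-- log A(g) ≥ g^2/3 for g^2 ≤ 1/2 -/
theorem log_A_ge {g : ℝ} (h1 : g ^ 2 ≤ 1 / 2) : g ^ 2 / 3 ≤ log (A g) := by
  have h2 : log (A g) = (1 / 2) * log (1 + g ^ 2) := by
    rw [← A_sq, log_pow]; push_cast; ring
  have h3 : 1 - (1 + g ^ 2)⁻¹ ≤ log (1 + g ^ 2) := Real.one_sub_inv_le_log_of_pos (by positivity)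
  have h4 : 2 * g ^ 2 / 3 ≤ 1 - (1 + g ^ 2)⁻¹ := by
    have e : 1 - (1 + g ^ 2)⁻¹ = g ^ 2 / (1 + g ^ 2) := by field_simp; ring
    rw [e, le_div_iff₀ (by positivity)]
    nlinarith [sq_nonneg g]
  rw [h2]; linarith

/-- the good zone of the Christian path at time u -/
structure Zone (gw ta : ℝ) (C : ℝ → X) (u : ℝ) : Prop where
  pth : Pth C
  gw0 : 0 < gw
  ta0 : 0 ≤ ta
  tau : ta ≤ u
  hg : gw * exp (u - ta) < (C u).P.g
  hE : 0 < EE (C u).P

theorem Zone.gw1 {gw ta : ℝ} {C : ℝ → X} {u : ℝ} (h : Zone gw ta C u) : gw < (C u).P.g := by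
  have h1 : 1 ≤ exp (u - ta) := one_le_exp (by linarith [h.tau])
  nlinarith [h.hg, h.gw0]

theorem Zone.gw2 {gw ta : ℝ} {C : ℝ → X} {u : ℝ} (h : Zone gw ta C u) : gw ^ 2 ≤ 1 / 2 := by
  have h1 := h.gw1
  have h2 := (C u).ok.g1
  have h3 := GG_sq
  have h4 := h.gw0
  nlinarith

theorem Zone.P0 {gw ta : ℝ} {C : ℝ → X} {u : ℝ} (h : Zone gw ta C u) : 0 < PC gw ta C u := by
  unfold PC
  apply lt_min _ h.hE
  have h1 := log_lt_log (by have := h.gw0; positivity) h.hg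
  rw [log_mul h.gw0.ne' (exp_pos _).ne', log_exp] at h1
  linarith

theorem PC_le {gw ta : ℝ} {C : ℝ → X} {u : ℝ} : PC gw ta C u ≤ 0.015 := by
  have h1 : PC gw ta C u ≤ EE (C u).P := min_le_right _ _
  have h2 := EE_le_RR (C u).ok
  have h3 := RR_hi
  norm_num at *
  linarith

theorem Zone.L {gw ta : ℝ} {C : ℝ → X} {u L : ℝ} (h : Zone gw ta C u)
    (hL : L ≤ ep gw * PC gw ta C u ^ 2) :
    L ≤ gw ^ 2 / 1000000 * 2 ∧ L ≤ PC gw ta C u / 10000 ∧ L ≤ 1 / 500000 := by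
  have h1 := ep_le h.gw0 h.gw2
  have h2 := h.P0
  have h3 := PC_le (gw := gw) (ta := ta) (C := C) (u := u)
  have h4 := h.gw2
  have h5 := ep_pos h.gw0 h.gw2
  have h6 : PC gw ta C u ^ 2 ≤ 0.000225 := by nlinarith
  refine ⟨?_, ?_, ?_⟩
  · nlinarith [sq_nonneg gw]
  · have : ep gw * PC gw ta C u ≤ 1 / 10000 := by
      have : ep gw ≤ 1 / 260 := by linarith
      nlinarith
    nlinarith
  · nlinarith [sq_nonneg gw]

/-- control of the Christian path in the zone -/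
theorem Zone.ctl (hLA : S_LA) {gw ta : ℝ} {C : ℝ → X} {u L : ℝ} (h : Zone gw ta C u)
    (hL : L ≤ ep gw * PC gw ta C u ^ 2) {τ : ℝ} (h1 : u ≤ τ) (h2 : τ ≤ u + L) :
    L < EE (C τ).P ∧ L < log (A (C τ).P.g) ∧ gw / 2 ≤ (C τ).P.g := by
  obtain ⟨l1, l2, l3⟩ := h.L hL
  have hP := h.P0
  have hPE : PC gw ta C u ≤ EE (C u).P := min_le_right _ _
  have hu : 0 ≤ u := h.ta0.trans h.tau
  have hd : dist (C u) (C τ) ≤ L := by
    have := h.pth u τ hu (hu.trans h1)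
    rw [abs_of_nonpos (by linarith)] at this
    linarith
  have hL0 : 0 ≤ L := by linarith
  have e1 := abs_le.1 ((X.EE_lip (C u) (C τ)).trans hd)
  have e2 := abs_le.1 ((hLA (C u) (C τ) (by linarith) (by linarith)).trans hd)
  have e3 : log (A gw) ≤ log (A (C u).P.g) :=
    log_le_log (A_pos _) (A_mono h.gw0.le h.gw1.le)
  have e4 := log_A_ge h.gw2
  have e5 : 0 < gw ^ 2 := by have := h.gw0; positivity
  have e6 : L < log (A (C τ).P.g) := by linarith [e2.2]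
  refine ⟨by linarith [e1.2], e6, ?_⟩
  have f1 : log (A gw) - L ≤ log (A (C τ).P.g) := by linarith [e2.2]
  have f2 : A gw * exp (-L) ≤ A (C τ).P.g := by
    have := exp_le_exp.2 f1
    rw [sub_eq_add_neg, exp_add, exp_log (A_pos _), exp_log (A_pos _)] at this
    exact this
  have f3 : (A gw * exp (-L)) ^ 2 ≤ A (C τ).P.g ^ 2 :=
    pow_le_pow_left₀ (by have := A_pos gw; positivity) f2 2
  rw [mul_pow, A_sq, A_sq] at f3
  have f4 : 1 - L ≤ exp (-L) := by have := add_one_le_exp (-L); linarith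
  have f5 : 1 - 2 * L ≤ exp (-L) ^ 2 := by nlinarith
  have f6 : gw ^ 2 / 4 ≤ (C τ).P.g ^ 2 := by
    have : (1 + gw ^ 2) * (1 - 2 * L) ≤ (1 + gw ^ 2) * exp (-L) ^ 2 := by gcongr
    nlinarith [h.gw2]
  have f7 : (gw / 2) ^ 2 ≤ (C τ).P.g ^ 2 := by
    rw [div_pow]; norm_num; linarith
  exact (pow_le_pow_iff_left₀ (by have := h.gw0; positivity) (C τ).ok.g0 (by norm_num)).1 f7

/-- two point control in the zone -/
theorem Zone.two (hTP : S_TP) (hLA : S_LA) {gw ta : ℝ} {C : ℝ → X} {u L : ℝ} (h : Zone gw ta C u)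
    (hL : L ≤ ep gw * PC gw ta C u ^ 2) {τ τ' : ℝ} (h1 : u ≤ τ) (h12 : τ ≤ τ') (h2 : τ' ≤ u + L) :
    (∀ m, 0 < m → m ≤ (C τ).P.g → m ≤ (C τ').P.g →
      sd (C τ).P (C τ').P ≤ (exp (τ' - τ) - 1) / (1 + m ^ 2 * exp (-(τ' - τ)))) ∧
    |log (C τ).P.g - log (C τ').P.g| ≤ (1 + 5 / gw ^ 2) * (τ' - τ) := by
  obtain ⟨a1, a2, a3⟩ := h.ctl hLA hL h1 (h12.trans h2)
  obtain ⟨b1, b2, b3⟩ := h.ctl hLA hL (h1.trans h12) h2
  obtain ⟨l1, l2, l3⟩ := h.L hL
  have hu : 0 ≤ u := h.ta0.trans h.tau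
  have hd : dist (C τ) (C τ') ≤ τ' - τ := by
    have := h.pth τ τ' (hu.trans h1) (hu.trans (h1.trans h12))
    rw [abs_of_nonpos (by linarith)] at this
    linarith
  have hdL : τ' - τ ≤ L := by linarith
  have hgw := h.gw0
  refine ⟨fun m hm hm1 hm2 => (tp' hTP hd (by linarith) (by linarith) (by linarith) (by linarith)
    (by linarith) hm hm1 hm2).1, ?_⟩
  refine (tp' hTP hd (by linarith) (by linarith) (by linarith) (by linarith)
    (by linarith) (m := gw / 2) (by positivity) a3 b3).2.trans ?_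
  have e1 : exp (2 * (τ' - τ)) ≤ 5 / 4 := by
    have := exp_upper (x := 2 * (τ' - τ)) (by linarith) (by linarith)
    nlinarith
  have e2 : exp (2 * (τ' - τ)) / (gw / 2) ^ 2 ≤ 5 / gw ^ 2 := by
    rw [div_le_div_iff₀ (by positivity) (by positivity)]
    nlinarith [sq_nonneg gw, (by positivity : 0 < gw ^ 2)]
  have : 0 ≤ τ' - τ := by linarith
  gcongr

theorem Zone.PC_lip (hTP : S_TP) (hLA : S_LA) {gw ta : ℝ} {C : ℝ → X} {u L : ℝ} (h : Zone gw ta C u)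
    (hL : L ≤ ep gw * PC gw ta C u ^ 2) {τ : ℝ} (h1 : u ≤ τ) (h2 : τ ≤ u + L) :
    |PC gw ta C u - PC gw ta C τ| ≤ KK gw * (τ - u) := by
  obtain ⟨-, e1⟩ := h.two hTP hLA hL le_rfl h1 h2
  have hu : 0 ≤ u := h.ta0.trans h.tau
  have hd : dist (C u) (C τ) ≤ τ - u := by
    have := h.pth u τ hu (hu.trans h1)
    rw [abs_of_nonpos (by linarith)] at this
    linarith
  have e2 := (X.EE_lip (C u) (C τ)).trans hd
  have hgw := h.gw0
  have h5 : 0 < 5 / gw ^ 2 := by positivity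
  have hK : KK gw = 3 + 5 / gw ^ 2 := rfl
  have hk : (τ - u) ≤ KK gw * (τ - u) := by rw [hK]; nlinarith
  have hk2 : (1 + 5 / gw ^ 2) * (τ - u) + (τ - u) ≤ KK gw * (τ - u) := by rw [hK]; nlinarith
  rw [abs_le] at e1 e2 ⊢
  unfold PC
  constructor
  · have : min (log (C τ).P.g - (log gw + (τ - ta))) (EE (C τ).P) ≤
        min (log (C u).P.g - (log gw + (u - ta))) (EE (C u).P) + KK gw * (τ - u) := by
      rw [← min_add_add_right]; apply min_le_min <;> linarith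
    linarith
  · have : min (log (C u).P.g - (log gw + (u - ta))) (EE (C u).P) ≤
        min (log (C τ).P.g - (log gw + (τ - ta))) (EE (C τ).P) + KK gw * (τ - u) := by
      rw [← min_add_add_right]; apply min_le_min <;> linarith
    linarith

/-- numerical inequality of the chase -/
theorem chase_num {x L h P κ e1 e2 : ℝ} (hx0 : 0 ≤ x) (hx : x ≤ 1 / 1000) (hL0 : 0 ≤ L)
    (hL : L ≤ x / 100) (hh0 : 0 < h) (hh : h ≤ 1 / 2) (hP : 10 * x ≤ h * P)
    (hκ : κ ≤ 1 + 3 * x) (he1 : e1 ≤ 1 + x) (he10 : 0 ≤ e1)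
    (he2 : 1 + 2 * P - x ≤ e2) :
    κ * (1 + L) * (1 + h * e1) ≤ 1 + h * e2 := by
  have a1 : κ * (1 + L) ≤ 1 + 4 * x := by nlinarith
  have a2 : 1 + h * e1 ≤ 1 + h + x / 2 := by nlinarith
  have a3 : κ * (1 + L) * (1 + h * e1) ≤ (1 + 4 * x) * (1 + h + x / 2) := by
    apply mul_le_mul a1 a2 (by positivity) (by linarith)
  have a4 : 1 + h + 2 * (h * P) - x / 2 ≤ 1 + h * e2 := by nlinarith
  nlinarith

end Pool.Agent.N91.LC
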