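import Pool.Agent.N91.LC.Chase2

set_option autoImplicit false

namespace Pool.Agent.N91.LC

open Real


/-- the trail following segment of the Lion -/
noncomputable def seg (gw ta : ℝ) (C : ℝ → X) (u t κ a : ℝ) : X :=
  pt (C (u + κ * a)).P.b (C (u + κ * a)).P.v (gw * exp (t + a - ta))

theorem seg_key (hTP : S_TP) (hLA : S_LA) {gw ta : ℝ} {C : ℝ → X} {u t : ℝ} (h : Zone gw ta C u)
    (hut : u ≤ t) (hL : t - u ≤ ep gw * PC gw ta C u ^ 2) :
    0 < PC gw ta C t ∧ 0 < ep gw * PC gw ta C t ^ 2 ∧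
    (∀ a, 0 ≤ a → a ≤ ep gw * PC gw ta C t ^ 2 →
      gw * exp (t + a - ta) ≤ (C u).P.g) ∧
    (∀ a b, 0 ≤ a → a ≤ b → b ≤ ep gw * PC gw ta C t ^ 2 →
      ∀ κ, κ = (t - u) / (ep gw * PC gw ta C t ^ 2) →
      sd (C (u + κ * a)).P (C (u + κ * b)).P ≤ (b - a) / (1 + (gw * exp (t + b - ta)) ^ 2)) := by
  set P := PC gw ta C u with hP
  set P' := PC gw ta C t with hP'
  set L := t - u with hLdef
  have hP0 : 0 < P := h.P0
  have hP1 : P ≤ 0.015 := PC_le
  have hg0 := h.gw0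
  have hg2 := h.gw2
  have hK := KK_ge hg0 hg2
  have hep := ep_pos hg0 hg2
  have hKe := KK_ep hg0 hg2
  have hL0 : 0 ≤ L := by linarith
  set x := gw ^ 2 * P / 10 with hx
  have hx0 : 0 < x := by positivity
  have hx1 : x ≤ 1 / 1000 := by rw [hx]; nlinarith
  -- K L ≤ x P
  have hKL : KK gw * L ≤ x * P := by
    calc KK gw * L ≤ KK gw * (ep gw * P ^ 2) := by gcongr
      _ = (KK gw * ep gw) * P ^ 2 := by ring
      _ = x * P := by rw [hKe, hx]; ring
  have hlip := h.PC_lip hTP hLA hL (τ := t) hut (by linarith)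
  rw [← hP, ← hP', ← hLdef, abs_le] at hlip
  have hPl : P * (1 - x) ≤ P' := by linarith [hlip.2]
  have hPu : P' ≤ P * (1 + x) := by linarith [hlip.1]
  have hP'0 : 0 < P' := lt_of_lt_of_le (by nlinarith) hPl
  have hLx : L ≤ x / 800 := by
    have : 13 * L ≤ 0.015 * x := by nlinarith
    linarith
  -- eps P^2
  have hepP : ep gw * P ^ 2 ≤ x / 800 := by
    have e1 : KK gw * (ep gw * P ^ 2) = x * P := by
      calc KK gw * (ep gw * P ^ 2) = (KK gw * ep gw) * P ^ 2 := by ring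
        _ = x * P := by rw [hKe, hx]; ring
    have : 0 < ep gw * P ^ 2 := by positivity
    have : 13 * (ep gw * P ^ 2) ≤ 0.015 * x := by nlinarith
    linarith
  set δ := ep gw * P' ^ 2 with hδ
  have hδ0 : 0 < δ := by positivity
  have hδ1 : δ ≤ x / 700 := by
    have : P' ^ 2 ≤ (P * (1 + x)) ^ 2 := pow_le_pow_left₀ hP'0.le hPu 2
    have h2 : δ ≤ (ep gw * P ^ 2) * (1 + x) ^ 2 := by
      rw [hδ]
      calc ep gw * P' ^ 2 ≤ ep gw * (P * (1 + x)) ^ 2 := by gcongr
        _ = _ := by ring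
    have h3 : (1 + x) ^ 2 ≤ 1.01 := by nlinarith
    have : (ep gw * P ^ 2) * (1 + x) ^ 2 ≤ x / 800 * 1.01 := by gcongr
    linarith
  have hδ2 : (ep gw * P ^ 2) * (1 - x) ^ 2 ≤ δ := by
    have h1 : (P * (1 - x)) ^ 2 ≤ P' ^ 2 :=
      pow_le_pow_left₀ (mul_nonneg hP0.le (by linarith)) hPl 2
    calc (ep gw * P ^ 2) * (1 - x) ^ 2 = ep gw * (P * (1 - x)) ^ 2 := by ring
      _ ≤ _ := by rw [hδ]; gcongr
  set gu := gw * exp (u - ta) with hgu
  have hgu0 : 0 < gu := by positivity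
  set hh' := gu ^ 2 with hhh
  have hh0 : 0 < hh' := by positivity
  have hexp1 : 1 ≤ exp (u - ta) := one_le_exp (by linarith [h.tau])
  have hh1 : gw ^ 2 ≤ hh' := by
    rw [hhh, hgu]; apply pow_le_pow_left₀ hg0.le; nlinarith
  have hguG : gu < (C u).P.g := h.hg
  have hh2 : hh' ≤ 1 / 2 := by
    have h1 := (C u).ok.g1
    have h3 := GG_sq
    rw [hhh]; nlinarith
  have hlogg : gu * exp P ≤ (C u).P.g := by
    have h1 : P ≤ log (C u).P.g - (log gw + (u - ta)) := min_le_left _ _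
    have h2 : log gu + P ≤ log (C u).P.g := by
      rw [hgu, log_mul hg0.ne' (exp_pos _).ne', log_exp]; linarith
    have := exp_le_exp.2 h2
    rwa [exp_add, exp_log hgu0, exp_log (hgu0.trans hguG)] at this
  have hxP : x ≤ P := by rw [hx]; nlinarith
  refine ⟨hP'0, hδ0, ?_, ?_⟩
  · intro a ha0 ha1
    refine le_trans ?_ hlogg
    rw [hgu, mul_assoc, ← exp_add]
    gcongr
    linarith
  · intro a b ha hab hb κ hκdef
    have hκ0 : 0 ≤ κ := by rw [hκdef]; positivity
    have hκδ : κ * δ = L := by rw [hκdef]; field_simp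
    have hκ1 : κ ≤ 1 + 3 * x := by
      rw [hκdef, div_le_iff₀ hδ0]
      have h1 : L ≤ ep gw * P ^ 2 := hL
      have h2 : 1 ≤ (1 + 3 * x) * (1 - x) ^ 2 := by
        have h3 : 0 ≤ x * (1 - 5 * x + 3 * x ^ 2) :=
          mul_nonneg hx0.le (by linarith [sq_nonneg x])
        have h4 : (1 + 3 * x) * (1 - x) ^ 2 = 1 + x * (1 - 5 * x + 3 * x ^ 2) := by ring
        rw [h4]; linarith
      calc L ≤ (ep gw * P ^ 2) * 1 := by linarith
        _ ≤ (ep gw * P ^ 2) * ((1 + 3 * x) * (1 - x) ^ 2) := by gcongr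
        _ = (1 + 3 * x) * ((ep gw * P ^ 2) * (1 - x) ^ 2) := by ring
        _ ≤ _ := by gcongr
    have hka : κ * a ≤ κ * b := by gcongr
    have hkb : κ * b ≤ L := by rw [← hκδ]; gcongr
    have hka0 : 0 ≤ κ * a := by positivity
    obtain ⟨t1, -⟩ := h.two hTP hLA hL (τ := u + κ * a) (τ' := u + κ * b) (by linarith) (by linarith)
      (by linarith)
    obtain ⟨-, c1⟩ := h.two hTP hLA hL (τ := u) (τ' := u + κ * a) le_rfl (by linarith) (by linarith)
    obtain ⟨-, c2⟩ := h.two hTP hLA hL (τ := u) (τ' := u + κ * b) le_rfl (by linarith) (by linarith)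
    obtain ⟨-, -, ga⟩ := h.ctl hLA hL (τ := u + κ * a) (by linarith) (by linarith)
    obtain ⟨-, -, gb⟩ := h.ctl hLA hL (τ := u + κ * b) (by linarith) (by linarith)
    have hgCu : 0 < (C u).P.g := hgu0.trans hguG
    have h5 : 0 < 5 / gw ^ 2 := by positivity
    have hKK : KK gw = 3 + 5 / gw ^ 2 := rfl
    set m := (C u).P.g * exp (-((KK gw - 2) * L)) with hm
    have hm0 : 0 < m := by positivity
    have mle : ∀ τ, u ≤ τ → τ ≤ u + L → 0 < (C τ).P.g →
        |log (C u).P.g - log (C τ).P.g| ≤ (1 + 5 / gw ^ 2) * (τ - u) → m ≤ (C τ).P.g := by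
      intro τ h1 h2 h3 h4
      have h6 : (1 + 5 / gw ^ 2) * (τ - u) ≤ (KK gw - 2) * L := by
        rw [show KK gw - 2 = 1 + 5 / gw ^ 2 by rw [hKK]; ring]
        gcongr; linarith
      have h7 := (abs_le.1 h4).2
      have h8 : log (C u).P.g + -((KK gw - 2) * L) ≤ log (C τ).P.g := by linarith
      have := exp_le_exp.2 h8
      rwa [exp_add, exp_log hgCu, exp_log h3] at this
    have hma : m ≤ (C (u + κ * a)).P.g := mle _ (by linarith) (by linarith) (by linarith) c1
    have hmb : m ≤ (C (u + κ * b)).P.g := mle _ (by linarith) (by linarith) (by linarith) c2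
    have key := t1 m hm0 hma hmb
    rw [show u + κ * b - (u + κ * a) = κ * (b - a) by ring] at key
    set Δ := b - a with hΔ
    have hΔ0 : 0 ≤ Δ := by linarith
    have hκΔ : κ * Δ ≤ L := by rw [hΔ]; nlinarith
    have hκΔ0 : 0 ≤ κ * Δ := by positivity
    -- numerator
    have n1 : exp (κ * Δ) - 1 ≤ κ * Δ * (1 + L) := by
      have := exp_upper hκΔ0 (by linarith)
      nlinarith
    -- denominator
    set e2 := exp (2 * P - (2 * KK gw + 1) * L) with he2
    have d1 : hh' * e2 ≤ m ^ 2 * exp (-(κ * Δ)) := by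
      have h1 : (gu * exp P) ^ 2 ≤ (C u).P.g ^ 2 := pow_le_pow_left₀ (by positivity) hlogg 2
      have h2 : hh' * exp (2 * P) ≤ (C u).P.g ^ 2 := by
        rw [mul_pow, ← exp_nat_mul] at h1; push_cast at h1; exact h1
      have h3 : m ^ 2 = (C u).P.g ^ 2 * exp (-(2 * (KK gw - 2) * L)) := by
        rw [hm, mul_pow, ← exp_nat_mul]; congr 2; push_cast; ring
      calc hh' * e2 = hh' * exp (2 * P) * exp (-((2 * KK gw + 1) * L)) := by
            rw [he2, mul_assoc, ← exp_add,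
              show 2 * P - (2 * KK gw + 1) * L = 2 * P + -((2 * KK gw + 1) * L) by ring]
        _ ≤ (C u).P.g ^ 2 * exp (-((2 * KK gw + 1) * L)) := by gcongr
        _ ≤ (C u).P.g ^ 2 * (exp (-(2 * (KK gw - 2) * L)) * exp (-(κ * Δ))) := by
            rw [← exp_add]; gcongr; nlinarith
        _ = _ := by rw [h3]; ring
    have he2' : 1 + 2 * P - x ≤ e2 := by
      have h1 := add_one_le_exp (2 * P - (2 * KK gw + 1) * L)
      have h2 : (2 * KK gw + 1) * L ≤ x := by nlinarith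
      rw [he2]; linarith
    set e1 := exp (2 * (L + δ)) with he1
    have he1' : e1 ≤ 1 + x := by
      have h1 : 2 * (L + δ) ≤ x / 100 := by linarith
      have := exp_upper (x := 2 * (L + δ)) (by positivity) (by linarith)
      rw [he1]
      nlinarith
    have hg' : (gw * exp (t + b - ta)) ^ 2 ≤ hh' * e1 := by
      rw [hhh, hgu, he1, mul_pow, mul_pow, mul_assoc, ← exp_nat_mul, ← exp_nat_mul, ← exp_add]
      gcongr
      push_cast; linarith
    have num := chase_num (x := x) (L := L) (h := hh') (P := P) (κ := κ) (e1 := e1) (e2 := e2) hx0.le hx1 hL0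
      (by linarith) hh0 hh2 (by rw [hx]; nlinarith) hκ1 he1' (exp_pos _).le he2'
    have den : 0 < 1 + m ^ 2 * exp (-(κ * Δ)) := by positivity
    have fin : (exp (κ * Δ) - 1) / (1 + m ^ 2 * exp (-(κ * Δ))) ≤ Δ / (1 + (gw * exp (t + b - ta)) ^ 2) := by
      rw [div_le_div_iff₀ den (by positivity)]
      have q1 : (exp (κ * Δ) - 1) * (1 + (gw * exp (t + b - ta)) ^ 2) ≤
          κ * Δ * (1 + L) * (1 + hh' * e1) := by
        apply mul_le_mul n1 (by linarith) (by positivity) (by positivity)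
      have q2 : κ * Δ * (1 + L) * (1 + hh' * e1) ≤ Δ * (1 + hh' * e2) := by
        calc κ * Δ * (1 + L) * (1 + hh' * e1) = Δ * (κ * (1 + L) * (1 + hh' * e1)) := by ring
          _ ≤ _ := by gcongr
      have q3 : Δ * (1 + hh' * e2) ≤ Δ * (1 + m ^ 2 * exp (-(κ * Δ))) := by gcongr
      linarith
    exact key.trans fin

theorem seg_ok (hTP : S_TP) (hLA : S_LA) {gw ta : ℝ} {C : ℝ → X} {u t : ℝ} (h : Zone gw ta C u)
    (hut : u ≤ t) (hL : t - u ≤ ep gw * PC gw ta C u ^ 2) {a : ℝ} (ha : 0 ≤ a)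
    (ha' : a ≤ ep gw * PC gw ta C t ^ 2) (τ : ℝ) :
    (⟨(C τ).P.b, (C τ).P.v, gw * exp (t + a - ta)⟩ : Pt).ok := by
  obtain ⟨-, -, h1, -⟩ := seg_key hTP hLA h hut hL
  have := (C τ).ok
  have hg := h.gw0
  exact ⟨this.b0, this.b1, this.v0, this.v1, by positivity, (h1 a ha ha').trans (C u).ok.g1, this.comb⟩

theorem chase_step (hTP : S_TP) (hLA : S_LA) {F : (ℝ → X) → (ℝ → X)} (hF : ChrStrat F)
    {l : ℝ → X} {ta gw u t : ℝ} (hl : Pth l) (hl0 : dist (l 0) x0 = 0)
    (hZ : Zone gw ta (F l) u) (hut : u ≤ t) (hL : t - u ≤ ep gw * PC gw ta (F l) u ^ 2)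
    (hlt : dist (l t) (pt (F l u).P.b (F l u).P.v (gw * exp (t - ta))) = 0) :
    ∃ l', Pth l' ∧ dist (l' 0) x0 = 0 ∧ (∀ s, s ≤ t → l' s = l s) ∧
      (∀ s, 0 ≤ s → s ≤ t → F l' s = F l s) ∧ Zone gw ta (F l') t ∧
      0 < ep gw * PC gw ta (F l') t ^ 2 ∧
      dist (l' (t + ep gw * PC gw ta (F l') t ^ 2))
        (pt (F l' t).P.b (F l' t).P.v (gw * exp (t + ep gw * PC gw ta (F l') t ^ 2 - ta))) = 0 := by
  obtain ⟨k1, k2, k3, k4⟩ := seg_key hTP hLA hZ hut hL
  set C := F l with hC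
  set δ := ep gw * PC gw ta C t ^ 2 with hδ
  set κ := (t - u) / δ with hκ
  have hu0 : 0 ≤ u := hZ.ta0.trans hZ.tau
  have ht0 : 0 ≤ t := hu0.trans hut
  have hκδ : κ * δ = t - u := by rw [hκ]; field_simp
  have hsegp : Pth (fun a => seg gw ta C u t κ (min a δ)) := by
    apply pth_of_on
    intro a b ha hab hb
    have oka := seg_ok hTP hLA hZ hut hL ha (hab.trans hb) (u + κ * a)
    have okb := seg_ok hTP hLA hZ hut hL (ha.trans hab) hb (u + κ * b)
    unfold seg
    rw [pt_eq oka, pt_eq okb]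
    apply mkc_dist_le
    left; left
    apply rise_strip (by linarith) oka.g0
    · show gw * exp (t + b - ta) = gw * exp (t + a - ta) * exp (b - a)
      rw [mul_assoc, ← exp_add]; congr 2; ring
    · exact k4 a b ha hab hb κ hκ
  set l' : ℝ → X := fun s => if s ≤ t then l s else seg gw ta C u t κ (min (s - t) δ) with hl'
  have hseg0 : seg gw ta C u t κ (min 0 δ) = pt (C u).P.b (C u).P.v (gw * exp (t - ta)) := by
    rw [min_eq_left k2.le]; unfold seg; rw [mul_zero, add_zero, add_zero]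
  have hpl' : Pth l' := glue_pth ht0 hl hsegp (by rw [hseg0]; exact hlt)
  have hagree : ∀ s, s ≤ t → l' s = l s := fun s hs => if_pos hs
  have hl'0 : dist (l' 0) x0 = 0 := by rw [hagree 0 ht0]; exact hl0
  have hFagree : ∀ s, 0 ≤ s → s ≤ t → F l' s = F l s := by
    intro s hs0 hs1
    exact hF.2 l' l hpl' hl'0 hl hl0 t ht0
      (fun r _ hr1 => by rw [hagree r hr1, dist_self]) s hs0 hs1
  have hFt : F l' t = C t := hFagree t ht0 le_rfl
  have hPCt : PC gw ta (F l') t = PC gw ta C t := by unfold PC; rw [hFt]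
  obtain ⟨z1, -, z3⟩ := hZ.ctl hLA hL (τ := t) hut (by linarith)
  have hgt : 0 < (C t).P.g := by have := hZ.gw0; linarith
  have hE : 0 < EE (C t).P := by linarith
  have hZt : Zone gw ta (F l') t := by
    refine ⟨(hF.1 l' hpl' hl'0).1, hZ.gw0, hZ.ta0, hZ.tau.trans hut, ?_, ?_⟩
    · rw [hFt]
      have h1 : PC gw ta C t ≤ log (C t).P.g - (log gw + (t - ta)) := min_le_left _ _
      have h2 : log gw + (t - ta) < log (C t).P.g := by linarith
      have := exp_lt_exp.2 h2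
      rwa [exp_add, exp_log hZ.gw0, exp_log hgt] at this
    · rw [hFt]; exact hE
  refine ⟨l', hpl', hl'0, hagree, hFagree, hZt, by rw [hPCt]; exact k2, ?_⟩
  rw [hPCt, hFt, ← hδ]
  have e1 : l' (t + δ) = seg gw ta C u t κ δ := by
    rw [hl']
    simp only
    rw [if_neg (by linarith), show t + δ - t = δ by ring, min_self]
  rw [e1]
  unfold seg
  rw [hκδ, show u + (t - u) = t by ring, dist_self]

end Pool.Agent.N91.LC
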