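import Pool.Agent.N91.LC.Chase3
import Pool.Agent.N348.LCcompact

set_option autoImplicit false

namespace Pool.Agent.N91.LC

open Real Filter Topology

theorem th_le_mul {g D : ℝ} (hD : 0 ≤ D) : th g D ≤ (1 + g ^ 2) * D := by
  have h1 := exp_th (g := g) hD
  have h2 := bern (k := g ^ 2) (s := 2 * D) (by positivity)
  have h3 : exp (2 * th g D) ≤ exp ((1 + g ^ 2) * (2 * D)) := by rw [h1]; exact h2
  have := exp_le_exp.1 h3
  linarith

theorem EE_en (n : ℕ) : EE (en n) = 0 := by
  show th 0 (ell - ell) = 0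
  rw [sub_self, th_zero_right]

theorem h_zero_of_EE {x : X} (h : 0 < EE x.P) : x.h = 0 := by
  rw [X.h_eq_zero_iff]
  rcases x.hr with h1 | h1
  · exact h1
  · rw [h1, EE_en] at h; exact absurd h (lt_irrefl _)

/-- the Lion is close when the margin and the lag are small -/
theorem near {gw ta : ℝ} {C : ℝ → X} {t lam : ℝ} (hZ : Zone gw ta C t) {Q : Pt} (hQ : Q.ok)
    (hQg : Q.g = gw * exp (t - ta)) (hlam : sd Q (C t).P ≤ lam) :
    dist (mkc Q hQ) (C t) ≤ 3 * (PC gw ta C t + lam) := by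
  have hP := hZ.P0
  have hl0 : 0 ≤ lam := (sd_nonneg _ _).trans hlam
  have hbase : dist (mkc (C t).P (C t).ok) (C t) = 0 := by
    rw [dist_comm]; exact X.eq_of_h_zero (h_zero_of_EE hZ.hE)
  have htri := dist_triangle (mkc Q hQ) (mkc (C t).P (C t).ok) (C t)
  rw [hbase, add_zero] at htri
  refine htri.trans ?_
  have hg2 : Q.g ^ 2 ≤ 1 / 2 := by
    have := hQ.g0; have := hQ.g1; have := GG_sq; nlinarith
  rcases le_total (EE (C t).P) (log (C t).P.g - (log gw + (t - ta))) with h | h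
  · have hPE : PC gw ta C t = EE (C t).P := min_eq_right h
    apply mkc_dist_le
    left; right; right
    unfold Exit
    have h1 : EE Q ≤ (1 + Q.g ^ 2) * (ell - Q.b) := th_le_mul hQ.eb
    have h2 : |Q.b - (C t).P.b| + |Q.v - (C t).P.v| ≤ lam := hlam
    have h3 := EE_ge (C t).ok
    have h4 := neg_abs_le (Q.b - (C t).P.b)
    have h5 : ell - Q.b ≤ EE (C t).P + lam := by linarith [abs_nonneg (Q.v - (C t).P.v)]
    have h6 : (1 + Q.g ^ 2) * (ell - Q.b) ≤ (3 / 2) * (EE (C t).P + lam) := by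
      apply mul_le_mul (by linarith) h5 hQ.eb (by norm_num)
    rw [hPE]
    rw [hPE] at hP
    linarith [abs_nonneg (Q.b - (C t).P.b)]
  · have hPE : PC gw ta C t = log (C t).P.g - (log gw + (t - ta)) := min_eq_left h
    have hgt : 0 < (C t).P.g := by have := hZ.gw1; have := hZ.gw0; linarith
    set Q' : Pt := ⟨(C t).P.b, (C t).P.v, Q.g⟩ with hQ'
    have hok := (C t).ok
    have hQ'ok : Q'.ok := ⟨hok.b0, hok.b1, hok.v0, hok.v1, hQ.g0, hQ.g1, hok.comb⟩
    have d1 : dist (mkc Q hQ) (mkc Q' hQ'ok) ≤ (1 + Q.g ^ 2) * sd Q Q' := level_dist hQ hQ'ok rfl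
    have e1 : sd Q Q' = sd Q (C t).P := rfl
    have hge : (C t).P.g = Q.g * exp (PC gw ta C t) := by
      rw [hQg, hPE, mul_assoc, ← exp_add, show t - ta + (log (C t).P.g - (log gw + (t - ta))) =
        log (C t).P.g - log gw by ring, exp_sub, exp_log hgt, exp_log hZ.gw0]
      have := hZ.gw0
      field_simp
    have d2 : dist (mkc Q' hQ'ok) (mkc (C t).P (C t).ok) ≤ PC gw ta C t := by
      apply mkc_dist_le
      left; left
      apply rise_strip (P := Q') hP.le hQ.g0 hge
      have : sd Q' (C t).P = 0 := by unfold sd; simp [hQ']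
      rw [this]; positivity
    have := dist_triangle (mkc Q hQ) (mkc Q' hQ'ok) (mkc (C t).P (C t).ok)
    rw [e1] at d1
    have : (1 + Q.g ^ 2) * sd Q (C t).P ≤ (3 / 2) * lam :=
      mul_le_mul (by linarith) hlam (sd_nonneg _ _) (by norm_num)
    linarith

/-- states of the chase -/
structure St (F : (ℝ → X) → (ℝ → X)) (gw ta : ℝ) where
  l : ℝ → X
  u : ℝ
  t : ℝ
  pl : Pth l
  l0 : dist (l 0) x0 = 0
  z : Zone gw ta (F l) u
  ut : u ≤ t
  hL : t - u ≤ ep gw * PC gw ta (F l) u ^ 2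
  ht : dist (l t) (pt (F l u).P.b (F l u).P.v (gw * exp (t - ta))) = 0

def Rel {F : (ℝ → X) → (ℝ → X)} {gw ta : ℝ} (S S' : St F gw ta) : Prop :=
  (∀ s, s ≤ S.t → S'.l s = S.l s) ∧ (∀ s, 0 ≤ s → s ≤ S.t → F S'.l s = F S.l s) ∧
  S'.u = S.t ∧ S'.t = S.t + ep gw * PC gw ta (F S'.l) S.t ^ 2 ∧ S.t < S'.t

theorem St.next (hTP : S_TP) (hLA : S_LA) {F : (ℝ → X) → (ℝ → X)} (hF : ChrStrat F) {gw ta : ℝ}
    (S : St F gw ta) : ∃ S' : St F gw ta, Rel S S' := by
  obtain ⟨l', h1, h2, h3, h4, h5, h6, h7⟩ := chase_step hTP hLA hF S.pl S.l0 S.z S.ut S.hL S.ht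
  exact ⟨⟨l', S.t, S.t + ep gw * PC gw ta (F l') S.t ^ 2, h1, h2, h5, by linarith, by linarith, h7⟩,
    h3, h4, rfl, rfl, by show S.t < S.t + _; linarith⟩

theorem chase (hTP : S_TP) (hLA : S_LA) : S_CHASE := by
  intro F hF l ta b v gw gC ⟨hl, hl0, hta, hlta, hFl, hgw, hgC, hb⟩
  have hP : (F l ta).P.b = b := by rw [hFl]
  have hPv : (F l ta).P.v = v := by rw [hFl]
  have hPg : (F l ta).P.g = gC := by rw [hFl]
  have hZ : Zone gw ta (F l) ta := by
    refine ⟨(hF.1 l hl hl0).1, hgw, hta, le_rfl, ?_, ?_⟩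
    · rw [sub_self, exp_zero, mul_one, hPg]; exact hgC
    · have := EE_ge (F l ta).ok
      rw [hP] at this; linarith
  have hep := ep_pos hgw hZ.gw2
  let S0 : St F gw ta := ⟨l, ta, ta, hl, hl0, hZ, le_rfl, by
    rw [sub_self]; exact mul_nonneg hep.le (sq_nonneg _), by
    rw [hP, hPv, sub_self, exp_zero, mul_one, ← hlta, dist_self]⟩
  choose nx hnx using fun S : St F gw ta => S.next hTP hLA hF
  let S : ℕ → St F gw ta := fun k => nx^[k] S0
  have hS : ∀ k, Rel (S k) (S (k + 1)) := by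
    intro k
    show Rel (nx^[k] S0) (nx^[k + 1] S0)
    rw [Function.iterate_succ_apply']
    exact hnx _
  have tmono : StrictMono (fun k => (S k).t) := strictMono_nat_of_lt_succ (fun k => (hS k).2.2.2.2)
  have t0 : ∀ k, 0 ≤ (S k).t := fun k => (hta.trans (S k).z.tau).trans (S k).ut
  have tbd : ∀ k, (S k).t ≤ ta + (log GG - log gw) := by
    intro k
    have h1 := (S (k + 1)).z.hg
    rw [(hS k).2.2.1] at h1
    have h2 := (F (S (k + 1)).l (S k).t).ok.g1
    have h3 := log_lt_log (by positivity) (lt_of_lt_of_le h1 h2)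
    rw [log_mul hgw.ne' (exp_pos _).ne', log_exp] at h3
    linarith
  have hbdd : BddAbove (Set.range (fun k => (S k).t)) :=
    ⟨ta + (log GG - log gw), by rintro _ ⟨k, rfl⟩; exact tbd k⟩
  set T := ⨆ k, (S k).t with hT
  have hlim : Tendsto (fun k => (S k).t) atTop (𝓝 T) := tendsto_atTop_ciSup tmono.monotone hbdd
  have tle : ∀ k, (S k).t ≤ T := fun k => le_ciSup hbdd k
  have tlt : ∀ k, (S k).t < T := fun k => lt_of_lt_of_le (tmono (Nat.lt_succ_self k)) (tle (k + 1))
  -- agreement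
  have agr : ∀ j k, k ≤ j → ∀ s, s ≤ (S k).t → (S j).l s = (S k).l s := by
    intro j k hkj
    induction j, hkj using Nat.le_induction with
    | base => intro s _; rfl
    | succ j hj ih =>
      intro s hs
      rw [(hS j).1 s (hs.trans (tmono.monotone hj)), ih s hs]
  have ex : ∀ s, s < T → ∃ k, s ≤ (S k).t := by
    intro s hs
    obtain ⟨k, hk⟩ := (hlim.eventually (lt_mem_nhds hs)).exists
    exact ⟨k, hk.le⟩
  classical
  -- limit point
  have hcau : CauchySeq (fun k => (S k).l (S k).t) := by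
    apply cauchySeq_of_le_tendsto_0' (fun k => T - (S k).t)
    · intro k j hkj
      rw [← agr j k hkj (S k).t le_rfl]
      refine ((S j).pl _ _ (t0 k) (t0 j)).trans ?_
      rw [abs_of_nonpos (by linarith [tmono.monotone hkj])]
      linarith [tle j]
    · have := (tendsto_const_nhds (x := T)).sub hlim
      rwa [sub_self] at this
  have : CompactSpace X := compactX
  obtain ⟨y, hy⟩ := cauchySeq_tendsto_of_complete hcau
  let L : ℝ → X := fun s => if h : s < T then (S (Classical.choose (ex s h))).l s else y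
  have hLk : ∀ k s, s ≤ (S k).t → L s = (S k).l s := by
    intro k s hs
    have h : s < T := lt_of_le_of_lt hs (tlt k)
    have e : L s = (S (Classical.choose (ex s h))).l s := dif_pos h
    rw [e]
    have hc := Classical.choose_spec (ex s h)
    rcases le_total k (Classical.choose (ex s h)) with h' | h'
    · exact agr _ _ h' s hs
    · exact (agr _ _ h' s hc).symm
  have hLT : ∀ s, T ≤ s → L s = y := fun s hs => dif_neg (not_lt.2 hs)
  have dist1 : ∀ s s', 0 ≤ s → 0 ≤ s' → s < T → s' < T → dist (L s) (L s') ≤ |s - s'| := by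
    intro s s' h0 h0' h1 h1'
    obtain ⟨k, hk⟩ := ex s h1
    obtain ⟨k', hk'⟩ := ex s' h1'
    have e1 : s ≤ (S (max k k')).t := hk.trans (tmono.monotone (le_max_left _ _))
    have e2 : s' ≤ (S (max k k')).t := hk'.trans (tmono.monotone (le_max_right _ _))
    rw [hLk _ s e1, hLk _ s' e2]
    exact (S _).pl s s' h0 h0'
  have dist2 : ∀ s, 0 ≤ s → s < T → dist (L s) y ≤ T - s := by
    intro s h0 h1
    have l1 : Tendsto (fun k => dist (L s) ((S k).l (S k).t)) atTop (𝓝 (dist (L s) y)) :=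
      tendsto_const_nhds.dist hy
    have l2 : Tendsto (fun k => |s - (S k).t|) atTop (𝓝 |s - T|) :=
      (tendsto_const_nhds.sub hlim).abs
    have l3 := le_of_tendsto_of_tendsto' l1 l2 (fun k => by
      rw [← hLk k _ le_rfl]; exact dist1 s _ h0 (t0 k) h1 (tlt k))
    rwa [abs_of_nonpos (by linarith), neg_sub] at l3
  have hLp : Pth L := by
    intro s s' h0 h0'
    rcases lt_or_ge s T with h1 | h1 <;> rcases lt_or_ge s' T with h1' | h1'
    · exact dist1 s s' h0 h0' h1 h1'
    · rw [hLT s' h1', abs_sub_comm]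
      exact (dist2 s h0 h1).trans ((by linarith : T - s ≤ s' - s).trans (le_abs_self _))
    · rw [hLT s h1, dist_comm]
      exact (dist2 s' h0' h1').trans ((by linarith : T - s' ≤ s - s').trans (le_abs_self _))
    · rw [hLT s h1, hLT s' h1', dist_self]; exact abs_nonneg _
  have hL0 : dist (L 0) x0 = 0 := by rw [hLk 0 0 (t0 0)]; exact (S 0).l0
  have hFk : ∀ k s, 0 ≤ s → s ≤ (S k).t → F L s = F (S k).l s := by
    intro k s h0 h1
    exact hF.2 L (S k).l hLp hL0 (S k).pl (S k).l0 (S k).t (t0 k)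
      (fun r _ hr => by rw [hLk k r hr, dist_self]) s h0 h1
  have hFp := (hF.1 L hLp hL0).1
  refine ⟨L, hLp, hL0, T, (t0 0).trans (tle 0), ?_⟩
  -- estimate at time t_{k+1}
  have hstep : ∀ k, dist (F L (S (k + 1)).t) (L (S (k + 1)).t) ≤
      3 * (PC gw ta (F L) (S (k + 1)).t + ((S (k + 1)).t - (S k).t)) := by
    intro k
    set s := (S (k + 1)).t with hs
    have hu : (S (k + 1)).u = (S k).t := (hS k).2.2.1
    -- zone at s for F (S (k+2)).l, hence for F L
    have hz2 := (S (k + 2)).z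
    have hu2 : (S (k + 2)).u = s := (hS (k + 1)).2.2.1
    rw [hu2] at hz2
    have e1 : F L s = F (S (k + 2)).l s := hFk (k + 2) s (t0 _) (tmono.monotone (Nat.le_succ (k + 1)))
    have hzL : Zone gw ta (F L) s := ⟨hFp, hz2.gw0, hz2.ta0, hz2.tau, by rw [e1]; exact hz2.hg,
      by rw [e1]; exact hz2.hE⟩
    have ht := (S (k + 1)).ht
    rw [hu] at ht
    have e2 : F (S (k + 1)).l (S k).t = F L (S k).t :=
      (hFk (k + 1) _ (t0 k) (tmono.monotone (Nat.le_succ k))).symm
    rw [e2, ← hs] at ht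
    have hok : (⟨(F L (S k).t).P.b, (F L (S k).t).P.v, gw * exp (s - ta)⟩ : Pt).ok := by
      have o := (F L (S k).t).ok
      exact ⟨o.b0, o.b1, o.v0, o.v1, by positivity, hzL.hg.le.trans (F L s).ok.g1, o.comb⟩
    rw [pt_eq hok, ← hLk (k + 1) s le_rfl] at ht
    have hlam : sd (⟨(F L (S k).t).P.b, (F L (S k).t).P.v, gw * exp (s - ta)⟩ : Pt) (F L s).P ≤
        s - (S k).t := by
      have h1 : sd (⟨(F L (S k).t).P.b, (F L (S k).t).P.v, gw * exp (s - ta)⟩ : Pt) (F L s).P =
        sd (F L (S k).t).P (F L s).P := rfl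
      rw [h1]
      refine (X.sd_le _ _).trans ((hFp _ _ (t0 k) (t0 _)).trans ?_)
      rw [abs_of_nonpos (by linarith [tmono.monotone (Nat.le_succ k)])]
      linarith
    have hn := near hzL hok rfl hlam
    have htr := dist_triangle (L s) (mkc _ hok) (F L s)
    rw [ht, zero_add] at htr
    rw [dist_comm]
    exact htr.trans hn
  have hzS : ∀ k, PC gw ta (F L) (S (k + 1)).t ^ 2 = ((S (k + 2)).t - (S (k + 1)).t) / ep gw := by
    intro k
    have h1 := (hS (k + 1)).2.2.2.1
    have e1 : F L (S (k + 1)).t = F (S (k + 2)).l (S (k + 1)).t :=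
      hFk (k + 2) _ (t0 _) (tmono.monotone (Nat.le_succ (k + 1)))
    have e2 : PC gw ta (F L) (S (k + 1)).t = PC gw ta (F (S (k + 2)).l) (S (k + 1)).t := by
      unfold PC; rw [e1]
    rw [e2, h1]
    field_simp
    ring
  have hP0 : ∀ k, 0 ≤ PC gw ta (F L) (S (k + 1)).t := by
    intro k
    have e1 : F L (S (k + 1)).t = F (S (k + 2)).l (S (k + 1)).t :=
      hFk (k + 2) _ (t0 _) (tmono.monotone (Nat.le_succ (k + 1)))
    have e2 : PC gw ta (F L) (S (k + 1)).t = PC gw ta (F (S (k + 2)).l) (S (k + 1)).t := by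
      unfold PC; rw [e1]
    rw [e2]
    have := (S (k + 2)).z.P0
    rw [(hS (k + 1)).2.2.1] at this
    exact this.le
  have lim1 : Tendsto (fun k => (S (k + 1)).t) atTop (𝓝 T) := hlim.comp (tendsto_add_atTop_nat 1)
  have lim2 : Tendsto (fun k => (S (k + 2)).t) atTop (𝓝 T) := hlim.comp (tendsto_add_atTop_nat 2)
  have limP : Tendsto (fun k => PC gw ta (F L) (S (k + 1)).t) atTop (𝓝 0) := by
    have h1 : Tendsto (fun k => Real.sqrt (((S (k + 2)).t - (S (k + 1)).t) / ep gw)) atTop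
        (𝓝 (Real.sqrt ((T - T) / ep gw))) :=
      (Real.continuous_sqrt.tendsto _).comp ((lim2.sub lim1).div_const _)
    rw [sub_self, zero_div, Real.sqrt_zero] at h1
    refine h1.congr (fun k => ?_)
    rw [← hzS k, Real.sqrt_sq (hP0 k)]
  have hfin : Tendsto (fun k => (T - (S (k + 1)).t) +
      3 * (PC gw ta (F L) (S (k + 1)).t + ((S (k + 1)).t - (S k).t)) + (T - (S (k + 1)).t)) atTop
      (𝓝 ((T - T) + 3 * (0 + (T - T)) + (T - T))) :=
    ((tendsto_const_nhds.sub lim1).add ((limP.add (lim1.sub hlim)).const_mul 3)).add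
      (tendsto_const_nhds.sub lim1)
  have hle : dist (F L T) (L T) ≤ (T - T) + 3 * (0 + (T - T)) + (T - T) := by
    refine ge_of_tendsto' hfin (fun k => ?_)
    have d1 : dist (F L T) (F L (S (k + 1)).t) ≤ T - (S (k + 1)).t := by
      have := hFp T (S (k + 1)).t ((t0 0).trans (tle 0)) (t0 _)
      rwa [abs_of_nonneg (by linarith [tle (k + 1)])] at this
    have d2 : dist (L (S (k + 1)).t) (L T) ≤ T - (S (k + 1)).t := by
      have := hLp T (S (k + 1)).t ((t0 0).trans (tle 0)) (t0 _)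
      rw [abs_of_nonneg (by linarith [tle (k + 1)])] at this
      rwa [dist_comm]
    have := dist_triangle4 (F L T) (F L (S (k + 1)).t) (L (S (k + 1)).t) (L T)
    linarith [hstep k]
  have h0 : (T - T) + 3 * (0 + (T - T)) + (T - T) = 0 := by ring
  rw [h0] at hle
  exact le_antisymm hle dist_nonneg

end Pool.Agent.N91.LC
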