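import Mathlib

set_option autoImplicit false

/-!
Unbounded-time Lion and Christian: the space.
Comb points (b, v, g): planar comb with spine b = 0, teeth v = pp n, limit tooth v = 0, and a warped
vertical coordinate g in [0, GG].
-/

namespace Pool.Agent.N91.LC

open Real

/-- tooth length -/
noncomputable def ell : ℝ := 1 / 100
/-- top level -/
noncomputable def GG : ℝ := Real.sqrt (1 / 2)
/-- time from the foot of a tooth at top level to its exit -/
noncomputable def RR : ℝ := (1 / 2) * log ((3 / 2) * exp (2 * ell) - 1 / 2)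
/-- abscissa of the start of the Lion in the limit tooth -/
noncomputable def binf : ℝ := RR - ell
noncomputable def p0 : ℝ := 1 / 10000
/-- position of tooth n on the spine -/
noncomputable def pp (n : ℕ) : ℝ := p0 * (1 / 3) ^ n
noncomputable def q0 : ℝ := 1 / 10000

/-- raw points of the comb times the vertical coordinate -/
@[ext] structure Pt where
  b : ℝ
  v : ℝ
  g : ℝ

def Pt.ok (x : Pt) : Prop :=
  0 ≤ x.b ∧ x.b ≤ ell ∧ 0 ≤ x.v ∧ x.v ≤ p0 ∧ 0 ≤ x.g ∧ x.g ≤ GG ∧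
    (x.b = 0 ∨ x.v = 0 ∨ ∃ n : ℕ, x.v = pp n)

noncomputable def A (g : ℝ) : ℝ := Real.sqrt (1 + g ^ 2)

/-- planar l1 distance -/
noncomputable def sd (x y : Pt) : ℝ := |x.b - y.b| + |x.v - y.v|

def Strip (x y : Pt) (c : ℝ) : Prop :=
  x.g ≤ exp c * y.g ∧ y.g ≤ exp c * x.g ∧ A x.g * A y.g * exp (sd x y) - x.g * y.g ≤ exp c

def Hub (x y : Pt) (c : ℝ) : Prop := sd x y + log (A x.g) + log (A y.g) ≤ c

/-- optimal time to an exit, from level g, with planar distance D to go -/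
noncomputable def th (g D : ℝ) : ℝ := (1 / 2) * log ((1 + g ^ 2) * exp (2 * D) - g ^ 2)

/-- distance to the exit line b = ell -/
noncomputable def EE (x : Pt) : ℝ := th x.g (ell - x.b)

def Exit (x y : Pt) (c : ℝ) : Prop := EE x + EE y + |x.v - y.v| ≤ c

def Adm3 (x y : Pt) (c : ℝ) : Prop := Strip x y c ∨ Hub x y c ∨ Exit x y c

/-- the fast lane -/
noncomputable def gam (q : ℝ) : Pt := ⟨binf - q / 3, 0, Real.sqrt (exp (2 * q) - 1)⟩

def Adm4 (x y : Pt) (c : ℝ) : Prop :=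
  Adm3 x y c ∨ ∃ q q' c1 c2 : ℝ, (0 ≤ q ∧ q ≤ q0) ∧ (0 ≤ q' ∧ q' ≤ q0) ∧
    Adm3 x (gam q) c1 ∧ Adm3 (gam q') y c2 ∧ c1 + |q - q'| + c2 ≤ c

/-- distance from the point s of ray n to its exit -/
noncomputable def hh (n : ℕ) (s : ℝ) : ℝ := min s ((1 / 2) ^ n / (1 + s))

/-- exit of tooth n -/
noncomputable def en (n : ℕ) : Pt := ⟨ell, pp n, 0⟩

/-- The (pseudo-metric) space: comb points, and ray points (s > 0) attached at the exits. -/
structure X where
  P : Pt
  n : ℕ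
  s : ℝ
  ok : P.ok
  hs : 0 ≤ s
  hr : s = 0 ∨ P = en n

def AdmX (x y : X) (c : ℝ) : Prop :=
  (x.P = en x.n ∧ y.P = en y.n ∧ x.n = y.n ∧ |x.s - y.s| ≤ c) ∨
    Adm4 x.P y.P (c - hh x.n x.s - hh y.n y.s)

/-- planar distance to go to the exit of tooth n -/
noncomputable def Dn (n : ℕ) (x : Pt) : ℝ :=
  open Classical in if x.v = pp n then ell - x.b else ell + x.b + |x.v - pp n|

noncomputable def Fn (n : ℕ) (x : Pt) : ℝ := min (th x.g (Dn n x)) (2 * ell)

/-! ### elementary facts -/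

theorem ell_pos : 0 < ell := by unfold ell; norm_num
theorem p0_pos : 0 < p0 := by unfold p0; norm_num
theorem pp_pos (n : ℕ) : 0 < pp n := by unfold pp; have := p0_pos; positivity
theorem pp_le (n : ℕ) : pp n ≤ p0 := by
  unfold pp
  have h : ((1:ℝ)/3)^n ≤ 1 := pow_le_one₀ (by norm_num) (by norm_num)
  nlinarith [p0_pos]
theorem pp_succ (n : ℕ) : pp (n+1) = pp n / 3 := by unfold pp; rw [pow_succ]; ring

theorem A_pos (g : ℝ) : 0 < A g := by unfold A; positivity
theorem A_sq (g : ℝ) : A g ^ 2 = 1 + g ^ 2 := by unfold A; rw [Real.sq_sqrt (by positivity)]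
theorem one_le_A (g : ℝ) : 1 ≤ A g := by
  have h1 := A_sq g; have h2 := A_pos g; nlinarith [sq_nonneg g]
theorem A_mul_ge (g g' : ℝ) : 1 + g * g' ≤ A g * A g' := by
  have h1 := A_sq g; have h2 := A_sq g'
  have h3 := A_pos g; have h4 := A_pos g'
  by_contra hcon
  push Not at hcon
  have h5 : (A g * A g')^2 < (1 + g*g')^2 := by
    have : 0 < A g * A g' := by positivity
    nlinarith
  have h6 : (A g * A g')^2 = (1+g^2)*(1+g'^2) := by rw [mul_pow, h1, h2]
  nlinarith [sq_nonneg (g-g')]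
theorem log_A_nonneg (g : ℝ) : 0 ≤ log (A g) := log_nonneg (one_le_A g)
theorem A_zero : A 0 = 1 := by unfold A; simp
theorem log_A_zero : log (A 0) = 0 := by rw [A_zero, log_one]
theorem A_mono {g g' : ℝ} (h0 : 0 ≤ g) (h : g ≤ g') : A g ≤ A g' := by
  unfold A; apply Real.sqrt_le_sqrt; nlinarith

theorem sd_nonneg (x y : Pt) : 0 ≤ sd x y := by unfold sd; positivity
theorem sd_self (x : Pt) : sd x x = 0 := by unfold sd; simp
theorem sd_comm (x y : Pt) : sd x y = sd y x := by unfold sd; rw [abs_sub_comm, abs_sub_comm x.v]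
theorem sd_tri (x y z : Pt) : sd x z ≤ sd x y + sd y z := by
  unfold sd; have := abs_sub_le x.b y.b z.b; have := abs_sub_le x.v y.v z.v; linarith

theorem Strip.refl (x : Pt) : Strip x x 0 := by
  refine ⟨by simp, by simp, ?_⟩
  rw [sd_self, exp_zero]
  have := A_sq x.g
  nlinarith

theorem Strip.symm {x y : Pt} {c : ℝ} (h : Strip x y c) : Strip y x c := by
  obtain ⟨h1, h2, h3⟩ := h
  refine ⟨h2, h1, ?_⟩
  rw [sd_comm]; nlinarith

theorem Strip.mono {x y : Pt} {c c' : ℝ} (hx : 0 ≤ x.g) (hy : 0 ≤ y.g) (h : Strip x y c)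
    (hc : c ≤ c') : Strip x y c' := by
  obtain ⟨h1, h2, h3⟩ := h
  have he : exp c ≤ exp c' := exp_le_exp.2 hc
  refine ⟨h1.trans (by gcongr), h2.trans (by gcongr), h3.trans he⟩

/-- from the strip relation: planar distance is controlled -/
theorem Strip.base {x y : Pt} {c : ℝ} (h : Strip x y c) :
    (1 + x.g * y.g) * (exp (sd x y) - 1) ≤ exp c - 1 := by
  obtain ⟨-, -, h3⟩ := h
  have h4 := A_mul_ge x.g y.g
  have h5 : 0 < exp (sd x y) := exp_pos _
  nlinarith

theorem Strip.sd_le {x y : Pt} {c : ℝ} (hx : 0 ≤ x.g) (hy : 0 ≤ y.g) (h : Strip x y c) :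
    sd x y ≤ c := by
  have h1 := h.base
  have h2 : 1 ≤ exp (sd x y) := one_le_exp (sd_nonneg x y)
  have h3 : exp (sd x y) ≤ exp c := by nlinarith [mul_nonneg hx hy]
  exact exp_le_exp.1 h3

theorem Strip.nonneg {x y : Pt} {c : ℝ} (hx : 0 ≤ x.g) (hy : 0 ≤ y.g) (h : Strip x y c) :
    0 ≤ c := (sd_nonneg x y).trans (h.sd_le hx hy)

theorem Hub.nonneg {x y : Pt} {c : ℝ} (h : Hub x y c) : 0 ≤ c := by
  unfold Hub at h
  linarith [sd_nonneg x y, log_A_nonneg x.g, log_A_nonneg y.g]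

/-- key estimate of the strip relation for hubs -/
theorem Strip.la {x y : Pt} {c : ℝ} (hy : 0 ≤ y.g) (h : Strip x y c) :
    sd x y + log (A x.g) ≤ c + log (A y.g) := by
  obtain ⟨h1, h2, h3⟩ := h
  have hA := A_sq y.g
  have hAy := A_pos y.g
  have hAx := A_pos x.g
  have h4 : A x.g * A y.g * exp (sd x y) ≤ exp c * A y.g ^ 2 := by
    rw [hA]; nlinarith
  have h5 : A x.g * exp (sd x y) ≤ exp c * A y.g := by
    by_contra hcon
    push Not at hcon
    nlinarith
  have h6 := log_le_log (by positivity) h5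
  rw [log_mul hAx.ne' (exp_pos _).ne', log_mul (exp_pos _).ne' hAy.ne', log_exp, log_exp] at h6
  linarith

theorem Strip.tri {x y z : Pt} {c c' : ℝ} (hx : 0 ≤ x.g) (hy : 0 ≤ y.g)
    (h : Strip x y c) (h' : Strip y z c') : Strip x z (c + c') := by
  obtain ⟨h1, h2, h3⟩ := h
  obtain ⟨k1, k2, k3⟩ := h'
  have hu : 0 < exp c := exp_pos _
  have hv : 0 < exp c' := exp_pos _
  rw [Strip, exp_add]
  refine ⟨?_, ?_, ?_⟩
  · calc x.g ≤ exp c * y.g := h1
      _ ≤ exp c * (exp c' * z.g) := by gcongr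
      _ = _ := by ring
  · calc z.g ≤ exp c' * y.g := k2
      _ ≤ exp c' * (exp c * x.g) := by gcongr
      _ = _ := by ring
  · have hA := A_sq y.g
    have hAx := A_pos x.g
    have hAy := A_pos y.g
    have hAz := A_pos z.g
    have e1 : exp (sd x z) ≤ exp (sd x y) * exp (sd y z) := by
      rw [← exp_add]; exact exp_le_exp.2 (sd_tri x y z)
    have m1 : (A x.g * A y.g * exp (sd x y)) * (A y.g * A z.g * exp (sd y z)) ≤
        (exp c + x.g * y.g) * (exp c' + y.g * z.g) := by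
      apply mul_le_mul
      · linarith
      · linarith
      · positivity
      · positivity
    have m2 : (exp c + x.g * y.g) * (exp c' + y.g * z.g) ≤
        (exp c * exp c' + x.g * z.g) * A y.g ^ 2 := by
      rw [hA]
      have : 0 ≤ (exp c * y.g - x.g) * (exp c' * y.g - z.g) :=
        mul_nonneg (by linarith) (by linarith)
      nlinarith
    have m3 : A x.g * A z.g * exp (sd x z) * A y.g ^ 2 ≤
        (A x.g * A y.g * exp (sd x y)) * (A y.g * A z.g * exp (sd y z)) := by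
      calc A x.g * A z.g * exp (sd x z) * A y.g ^ 2
          ≤ A x.g * A z.g * (exp (sd x y) * exp (sd y z)) * A y.g ^ 2 := by gcongr
        _ = _ := by ring
    have m4 : A x.g * A z.g * exp (sd x z) * A y.g ^ 2 ≤
        (exp c * exp c' + x.g * z.g) * A y.g ^ 2 := m3.trans (m1.trans m2)
    have m5 : A x.g * A z.g * exp (sd x z) ≤ exp c * exp c' + x.g * z.g :=
      le_of_mul_le_mul_right m4 (by positivity)
    linarith

/-! ### the function th -/

theorem th_arg_pos {g D : ℝ} (hD : 0 ≤ D) : 1 ≤ (1 + g ^ 2) * exp (2 * D) - g ^ 2 := by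
  have : 1 ≤ exp (2 * D) := one_le_exp (by linarith)
  nlinarith [sq_nonneg g]

theorem exp_th {g D : ℝ} (hD : 0 ≤ D) : exp (2 * th g D) = (1 + g ^ 2) * exp (2 * D) - g ^ 2 := by
  unfold th
  have := th_arg_pos (g := g) hD
  rw [show 2 * (1 / 2 * log ((1 + g ^ 2) * exp (2 * D) - g ^ 2)) =
    log ((1 + g ^ 2) * exp (2 * D) - g ^ 2) by ring, exp_log (by linarith)]

theorem th_ge {g D : ℝ} (hD : 0 ≤ D) : D ≤ th g D := by
  have h1 := exp_th (g := g) hD
  have h2 : 1 ≤ exp (2 * D) := one_le_exp (by linarith)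
  have h3 : exp (2 * D) ≤ exp (2 * th g D) := by rw [h1]; nlinarith [sq_nonneg g]
  have := exp_le_exp.1 h3
  linarith

theorem th_nonneg {g D : ℝ} (hD : 0 ≤ D) : 0 ≤ th g D := hD.trans (th_ge hD)

theorem th_le_add {g D : ℝ} (hD : 0 ≤ D) : th g D ≤ D + log (A g) := by
  have h1 := exp_th (g := g) hD
  have h3 : exp (2 * th g D) ≤ exp (2 * (D + log (A g))) := by
    rw [h1, show 2 * (D + log (A g)) = 2 * D + (log (A g) + log (A g)) by ring, exp_add, exp_add,
      exp_log (A_pos g)]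
    have hA : A g * A g = 1 + g ^ 2 := by rw [← sq]; exact A_sq g
    rw [hA]
    nlinarith [sq_nonneg g]
  have := exp_le_exp.1 h3
  linarith

theorem th_zero_left (D : ℝ) : th 0 D = D := by
  unfold th; simp

theorem th_zero_right (g : ℝ) : th g 0 = 0 := by
  unfold th; simp

theorem th_mono_right {g D D' : ℝ} (hD : 0 ≤ D) (h : D ≤ D') : th g D ≤ th g D' := by
  have h1 := exp_th (g := g) hD
  have h2 := exp_th (g := g) (hD.trans h)
  have h3 : exp (2 * th g D) ≤ exp (2 * th g D') := by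
    rw [h1, h2]
    have : exp (2 * D) ≤ exp (2 * D') := exp_le_exp.2 (by linarith)
    nlinarith [sq_nonneg g]
  have := exp_le_exp.1 h3
  linarith

theorem th_mono_left {g g' D : ℝ} (hD : 0 ≤ D) (hg : 0 ≤ g) (h : g ≤ g') : th g D ≤ th g' D := by
  have h1 := exp_th (g := g) hD
  have h2 := exp_th (g := g') hD
  have h3 : exp (2 * th g D) ≤ exp (2 * th g' D) := by
    rw [h1, h2]
    have : 1 ≤ exp (2 * D) := one_le_exp (by linarith)
    nlinarith [mul_self_le_mul_self hg h]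
  have := exp_le_exp.1 h3
  linarith

theorem th_add {g D v : ℝ} (hD : 0 ≤ D) (hv : 0 ≤ v) : th g D + v ≤ th g (D + v) := by
  have h1 := exp_th (g := g) hD
  have h2 := exp_th (g := g) (add_nonneg hD hv)
  have h3 : exp (2 * (th g D + v)) ≤ exp (2 * th g (D + v)) := by
    rw [h2, show 2 * (th g D + v) = 2 * th g D + 2 * v by ring, exp_add, h1,
      show 2 * (D + v) = 2 * D + 2 * v by ring, exp_add]
    have : 1 ≤ exp (2 * v) := one_le_exp (by linarith)
    nlinarith [sq_nonneg g]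
  have := exp_le_exp.1 h3
  linarith

/-- the Lipschitz estimate for th, strip case -/
theorem th_strip {x y : Pt} {c D D' : ℝ} (hx : 0 ≤ x.g) (hy : 0 ≤ y.g) (hD : 0 ≤ D) (hD' : 0 ≤ D')
    (h : Strip x y c) (hDD : D ≤ D' + sd x y) : th x.g D ≤ th y.g D' + c := by
  obtain ⟨h1, h2, h3⟩ := h
  have e1 := exp_th (g := x.g) hD
  have e2 := exp_th (g := y.g) hD'
  have hu : 0 < exp c := exp_pos _
  have hw : 1 ≤ exp (2 * D') := one_le_exp (by linarith)
  have hAx := A_sq x.g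
  have hAy := A_sq y.g
  have pAx := A_pos x.g
  have pAy := A_pos y.g
  have hs : exp (2 * D) ≤ exp (2 * D') * exp (sd x y) ^ 2 := by
    rw [← exp_nat_mul, ← exp_add]; apply exp_le_exp.2; push_cast; linarith
  -- (Ax Ay e^s)^2 ≤ (u + g g')^2
  have h4 : (A x.g * A y.g * exp (sd x y)) ^ 2 ≤ (exp c + x.g * y.g) ^ 2 := by
    apply pow_le_pow_left₀ (by positivity); linarith
  have h5 : (1 + x.g ^ 2) * (1 + y.g ^ 2) * exp (sd x y) ^ 2 ≤ (exp c + x.g * y.g) ^ 2 := by
    have : (A x.g * A y.g * exp (sd x y)) ^ 2 = (1 + x.g ^ 2) * (1 + y.g ^ 2) * exp (sd x y) ^ 2 := by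
      rw [mul_pow, mul_pow, hAx, hAy]
    linarith
  -- key inequality
  have key : ((1 + x.g ^ 2) * exp (2 * D) - x.g ^ 2) * (1 + y.g ^ 2) ≤
      (exp c ^ 2 * ((1 + y.g ^ 2) * exp (2 * D') - y.g ^ 2)) * (1 + y.g ^ 2) := by
    have k1 : (1 + x.g ^ 2) * exp (2 * D) * (1 + y.g ^ 2) ≤ (exp c + x.g * y.g) ^ 2 * exp (2 * D') := by
      calc (1 + x.g ^ 2) * exp (2 * D) * (1 + y.g ^ 2)
          ≤ (1 + x.g ^ 2) * (exp (2 * D') * exp (sd x y) ^ 2) * (1 + y.g ^ 2) := by gcongr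
        _ = ((1 + x.g ^ 2) * (1 + y.g ^ 2) * exp (sd x y) ^ 2) * exp (2 * D') := by ring
        _ ≤ _ := by gcongr
    have k2 : 0 ≤ exp c ^ 2 * (1 + y.g ^ 2) ^ 2 - (exp c + x.g * y.g) ^ 2 := by
      have : exp c + x.g * y.g ≤ exp c * (1 + y.g ^ 2) := by nlinarith
      have : (exp c + x.g * y.g) ^ 2 ≤ (exp c * (1 + y.g ^ 2)) ^ 2 := by
        apply pow_le_pow_left₀ (by positivity) this
      nlinarith
    have k3 : 0 ≤ (exp c ^ 2 * (1 + y.g ^ 2) ^ 2 - (exp c + x.g * y.g) ^ 2) * (exp (2 * D') - 1) :=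
      mul_nonneg k2 (by linarith)
    have k4 : (exp c + x.g * y.g) ^ 2 ≤ (1 + y.g ^ 2) * (exp c ^ 2 + x.g ^ 2) := by
      nlinarith [sq_nonneg (exp c * y.g - x.g)]
    nlinarith
  have key2 := le_of_mul_le_mul_right key (by positivity)
  have h6 : exp (2 * th x.g D) ≤ exp (2 * (th y.g D' + c)) := by
    rw [e1, show 2 * (th y.g D' + c) = 2 * th y.g D' + 2 * c by ring, exp_add, e2,
      show (2:ℝ) * c = ((2:ℕ):ℝ) * c by norm_num, exp_nat_mul]
    linarith
  have := exp_le_exp.1 h6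
  linarith

theorem th_hub {x y : Pt} {c D D' : ℝ} (hD : 0 ≤ D) (hD' : 0 ≤ D')
    (h : Hub x y c) (hDD : D ≤ D' + sd x y) : th x.g D ≤ th y.g D' + c := by
  unfold Hub at h
  have h1 := th_le_add (g := x.g) hD
  have h2 := th_ge (g := y.g) hD'
  have h3 := log_A_nonneg y.g
  linarith

end Pool.Agent.N91.LC
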