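import Pool.Agent.N91.LC.Stm

set_option autoImplicit false

namespace Pool.Agent.N91.LC

open Real
open scoped NNReal

/-- the metric space -/
abbrev MM : Type := SeparationQuotient X

noncomputable def down (c : ℝ → X) : ℝ≥0 → MM := fun t => SeparationQuotient.mk (c t)

noncomputable def outX (z : MM) : X := Function.surjInv SeparationQuotient.surjective_mk z

theorem mk_outX (z : MM) : SeparationQuotient.mk (outX z) = z :=
  Function.surjInv_eq SeparationQuotient.surjective_mk z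

noncomputable def lift (F : (ℝ≥0 → MM) → (ℝ≥0 → MM)) : (ℝ → X) → (ℝ → X) :=
  fun c t => outX (F (down c) t.toNNReal)

theorem dist_mk' (x y : X) : dist (SeparationQuotient.mk x) (SeparationQuotient.mk y) = dist x y :=
  SeparationQuotient.dist_mk x y

theorem dist_outX (z w : MM) : dist (outX z) (outX w) = dist z w := by
  rw [← dist_mk', mk_outX, mk_outX]

theorem mk_eq {x y : X} : (SeparationQuotient.mk x = SeparationQuotient.mk y) ↔ dist x y = 0 := by
  rw [← dist_mk', dist_eq_zero]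

theorem down_lip {c : ℝ → X} (h : Pth c) : LipschitzWith 1 (down c) := by
  apply LipschitzWith.of_dist_le_mul
  intro s t
  rw [NNReal.coe_one, one_mul]
  unfold down
  rw [dist_mk', NNReal.dist_eq]
  exact h s t s.2 t.2

theorem lift_pth {F : (ℝ≥0 → MM) → (ℝ≥0 → MM)} {c : ℝ → X} (h : LipschitzWith 1 (F (down c))) :
    Pth (lift F c) := by
  intro s t hs ht
  unfold lift
  rw [dist_outX]
  have := h.dist_le_mul s.toNNReal t.toNNReal
  rw [NNReal.coe_one, one_mul, NNReal.dist_eq, Real.coe_toNNReal s hs, Real.coe_toNNReal t ht] at this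
  exact this

theorem lift_zero {F : (ℝ≥0 → MM) → (ℝ≥0 → MM)} {c : ℝ → X} {a : X}
    (h : F (down c) 0 = SeparationQuotient.mk a) : dist (lift F c 0) a = 0 := by
  unfold lift
  rw [Real.toNNReal_zero, ← dist_mk', mk_outX, h, dist_self]

theorem lift_look {F : (ℝ≥0 → MM) → (ℝ≥0 → MM)} {c c' : ℝ → X} {t : ℝ} (ht : 0 ≤ t)
    (hF : ∀ r : ℝ≥0, (∀ s, s ≤ r → down c s = down c' s) → ∀ s, s ≤ r → F (down c) s = F (down c') s)
    (h : ∀ s, 0 ≤ s → s ≤ t → dist (c s) (c' s) = 0) :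
    ∀ s, 0 ≤ s → s ≤ t → lift F c s = lift F c' s := by
  intro s hs hst
  unfold lift
  rw [hF t.toNNReal ?_ s.toNNReal (Real.toNNReal_le_toNNReal hst)]
  intro r hr
  apply mk_eq.2
  apply h r r.2
  have := NNReal.coe_le_coe.2 hr
  rwa [Real.coe_toNNReal t ht] at this

theorem lift_at {F : (ℝ≥0 → MM) → (ℝ≥0 → MM)} {c : ℝ → X} {t : ℝ} (ht : 0 ≤ t) :
    dist (lift F c t) (c t) = 0 ↔ F (down c) t.toNNReal = down c t.toNNReal := by
  unfold lift down
  rw [← dist_mk', mk_outX, dist_eq_zero, Real.coe_toNNReal t ht]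

theorem main_of (hC : CompactSpace X) (hCW : S_CW) (hLW : S_LW) :
    ∃ (M : Type) (_ : MetricSpace M), CompactSpace M ∧ ∃ (x₀ y₀ : M),
      (¬ ∃ F : (ℝ≥0 → M) → (ℝ≥0 → M),
          (∀ c : ℝ≥0 → M, LipschitzWith 1 c → c 0 = y₀ →
              LipschitzWith 1 (F c) ∧ F c 0 = x₀) ∧
          (∀ c c' : ℝ≥0 → M, LipschitzWith 1 c → c 0 = y₀ →
              LipschitzWith 1 c' → c' 0 = y₀ →
              ∀ t : ℝ≥0, (∀ s, s ≤ t → c s = c' s) → ∀ s, s ≤ t → F c s = F c' s) ∧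
          (∀ c : ℝ≥0 → M, LipschitzWith 1 c → c 0 = y₀ → ∃ t : ℝ≥0, F c t = c t)) ∧
      (¬ ∃ G : (ℝ≥0 → M) → (ℝ≥0 → M),
          (∀ l : ℝ≥0 → M, LipschitzWith 1 l → l 0 = x₀ →
              LipschitzWith 1 (G l) ∧ G l 0 = y₀) ∧
          (∀ l l' : ℝ≥0 → M, LipschitzWith 1 l → l 0 = x₀ →
              LipschitzWith 1 l' → l' 0 = x₀ →
              ∀ t : ℝ≥0, (∀ s, s ≤ t → l s = l' s) → ∀ s, s ≤ t → G l s = G l' s) ∧
          (∀ l : ℝ≥0 → M, LipschitzWith 1 l → l 0 = x₀ → ∀ t : ℝ≥0, G l t ≠ l t)) := by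
  have d0 : ∀ (c : ℝ → X) (a : X), dist (c 0) a = 0 → down c 0 = SeparationQuotient.mk a := by
    intro c a h
    unfold down
    rw [NNReal.coe_zero]
    exact mk_eq.2 h
  have hCM : CompactSpace MM := ⟨by
    rw [← Set.range_eq_univ.2 (SeparationQuotient.surjective_mk (X := X))]
    exact isCompact_range SeparationQuotient.continuous_mk⟩
  refine ⟨MM, inferInstance, hCM, SeparationQuotient.mk x0, SeparationQuotient.mk y0, ?_, ?_⟩
  · rintro ⟨F, h1, h2, h3⟩
    have hS : LionStrat (lift F) := by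
      refine ⟨fun c hc hc0 => ⟨lift_pth (h1 _ (down_lip hc) (d0 c y0 hc0)).1,
        lift_zero (h1 _ (down_lip hc) (d0 c y0 hc0)).2⟩, ?_⟩
      intro c c' hc hc0 hc' hc0' t ht h
      exact lift_look ht (h2 _ _ (down_lip hc) (d0 c y0 hc0) (down_lip hc') (d0 c' y0 hc0')) h
    obtain ⟨c, hc, hc0, hcap⟩ := hCW _ hS
    obtain ⟨t, ht⟩ := h3 _ (down_lip hc) (d0 c y0 hc0)
    exact hcap t t.coe_nonneg ((lift_at t.coe_nonneg).2 (by rw [Real.toNNReal_coe]; exact ht))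
  · rintro ⟨G, h1, h2, h3⟩
    have hS : ChrStrat (lift G) := by
      refine ⟨fun c hc hc0 => ⟨lift_pth (h1 _ (down_lip hc) (d0 c x0 hc0)).1,
        lift_zero (h1 _ (down_lip hc) (d0 c x0 hc0)).2⟩, ?_⟩
      intro c c' hc hc0 hc' hc0' t ht h
      exact lift_look ht (h2 _ _ (down_lip hc) (d0 c x0 hc0) (down_lip hc') (d0 c' x0 hc0')) h
    obtain ⟨l, hl, hl0, t, ht, hcap⟩ := hLW _ hS
    exact h3 _ (down_lip hl) (d0 l x0 hl0) t.toNNReal ((lift_at ht).1 hcap)

end Pool.Agent.N91.LC
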