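import Pool.Agent.N91.LC.Stm

set_option autoImplicit false

namespace Pool.Agent.N91.LC

open Real

/-! ### path tools -/

theorem abs_min_le (a b c : ℝ) : |min a c - min b c| ≤ |a - b| := by
  have := abs_min_sub_min_le_max a c b c
  rw [sub_self, abs_zero, max_eq_left (abs_nonneg _)] at this
  exact this

theorem abs_max_le (a b c : ℝ) : |max c a - max c b| ≤ |a - b| := by
  have := abs_max_sub_max_le_max c a c b
  rwa [sub_self, abs_zero, max_eq_right (abs_nonneg (a - b))] at this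

/-- gluing two paths at time t0 -/
theorem glue_pth {c1 c2 : ℝ → X} {t0 : ℝ} (ht0 : 0 ≤ t0) (h1 : Pth c1) (h2 : Pth c2)
    (h : dist (c1 t0) (c2 0) = 0) : Pth (fun t => if t ≤ t0 then c1 t else c2 (t - t0)) := by
  have key : ∀ s t, 0 ≤ s → s ≤ t0 → t0 < t → dist (c1 s) (c2 (t - t0)) ≤ t - s := by
    intro s t hs hs0 ht
    have e1 := h1 s t0 hs ht0
    have e2 := h2 0 (t - t0) le_rfl (by linarith)
    rw [abs_of_nonpos (by linarith)] at e1 e2
    have := dist_triangle4 (c1 s) (c1 t0) (c2 0) (c2 (t - t0))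
    linarith
  intro s t hs ht
  by_cases a : s ≤ t0 <;> by_cases b : t ≤ t0
  · simp only [if_pos a, if_pos b]; exact h1 s t hs ht
  · simp only [if_pos a, if_neg b]
    push Not at b
    have := key s t hs a b
    rw [abs_sub_comm]; exact this.trans (le_abs_self _)
  · simp only [if_neg a, if_pos b]
    push Not at a
    have := key t s ht b a
    rw [dist_comm]; exact this.trans (le_abs_self _)
  · simp only [if_neg a, if_neg b]
    push Not at a b
    have := h2 (s - t0) (t - t0) (by linarith) (by linarith)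
    rw [show s - t0 - (t - t0) = s - t by ring] at this
    exact this

/-- the constant path -/
theorem const_pth (x : X) : Pth (fun _ => x) := by
  intro s t _ _; rw [dist_self]; exact abs_nonneg _

/-- stopping a path at time T -/
theorem stop_pth {c : ℝ → X} {T : ℝ} (hT : 0 ≤ T) (h : Pth c) : Pth (fun t => c (min t T)) := by
  intro s t hs ht
  refine (h _ _ (le_min hs hT) (le_min ht hT)).trans ?_
  exact abs_min_le _ _ _

/-- a path on [0, T] only, extended by a constant -/
theorem pth_of_on {c : ℝ → X} {T : ℝ}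
    (h : ∀ s t, 0 ≤ s → s ≤ t → t ≤ T → dist (c s) (c t) ≤ t - s) : Pth (fun t => c (min t T)) := by
  have key : ∀ s t, 0 ≤ s → s ≤ t → dist (c (min s T)) (c (min t T)) ≤ t - s := by
    intro s t hs hst
    rcases le_total t T with h1 | h1
    · rw [min_eq_left h1, min_eq_left (hst.trans h1)]; exact h s t hs hst h1
    · rw [min_eq_right h1]
      rcases le_total s T with h2 | h2
      · rw [min_eq_left h2]; exact (h s T hs h2 le_rfl).trans (by linarith)
      · rw [min_eq_right h2, dist_self]; linarith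
  intro s t hs ht
  rcases le_total s t with h1 | h1
  · rw [abs_sub_comm]; exact (key s t hs h1).trans (le_abs_self _)
  · rw [dist_comm]; exact (key t s ht h1).trans (le_abs_self _)

theorem ray_pth (n : ℕ) : Pth (ray n) := fun _ _ hs ht => ray_dist_le n hs ht

/-- (1+k)(e^s) - k ≤ e^((1+k)s) -/
theorem bern {k s : ℝ} (hk : 0 ≤ k) : (1 + k) * exp s - k ≤ exp ((1 + k) * s) := by
  have h := one_add_mul_self_le_rpow_one_add (s := exp s - 1) (by linarith [exp_pos s])
    (p := 1 + k) (by linarith)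
  rw [show 1 + (exp s - 1) = exp s by ring, ← Real.exp_mul] at h
  rw [mul_comm (1 + k) s]
  linarith

/-- walking at constant level -/
theorem level_strip {P P' : Pt} (hg : P.g = P'.g) (h0 : 0 ≤ P.g) :
    Strip P P' ((1 + P.g ^ 2) * sd P P') := by
  have hs := sd_nonneg P P'
  have h1 : 1 ≤ exp ((1 + P.g ^ 2) * sd P P') := one_le_exp (by positivity)
  refine ⟨?_, ?_, ?_⟩
  · rw [← hg]; nlinarith
  · rw [← hg]; nlinarith
  · rw [← hg]
    have := bern (k := P.g ^ 2) (s := sd P P') (by positivity)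
    have hA := A_sq P.g
    have e : A P.g * A P.g = 1 + P.g ^ 2 := by rw [← sq]; exact hA
    rw [e]; nlinarith

theorem level_dist {P P' : Pt} (h : P.ok) (h' : P'.ok) (hg : P.g = P'.g) :
    dist (mkc P h) (mkc P' h') ≤ (1 + P.g ^ 2) * sd P P' :=
  mkc_dist_le h h' (Or.inl (Or.inl (level_strip hg h.g0)))

/-- the spine walk of the Christian -/
theorem walk_pth : Pth wk := by
  have hp := p0_pos
  have hok : ∀ t, 0 ≤ t → (⟨0, min (2 / 3 * t) p0, GG⟩ : Pt).ok := by
    intro t ht
    exact ⟨le_rfl, ell_pos.le, le_min (by positivity) hp.le, min_le_right _ _, GG_pos.le, le_rfl,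
      Or.inl rfl⟩
  intro s t hs ht
  unfold wk
  rw [pt_eq (hok s hs), pt_eq (hok t ht)]
  refine (level_dist (hok s hs) (hok t ht) rfl).trans ?_
  show (1 + GG ^ 2) * (|(0:ℝ) - 0| + |min (2 / 3 * s) p0 - min (2 / 3 * t) p0|) ≤ _
  rw [GG_sq]
  have h1 : |min (2 / 3 * s) p0 - min (2 / 3 * t) p0| ≤ |2 / 3 * s - 2 / 3 * t| :=
    abs_min_le _ _ _
  have h2 : |2 / 3 * s - 2 / 3 * t| = 2 / 3 * |s - t| := by
    rw [← mul_sub, abs_mul]; norm_num
  simp only [sub_self, abs_zero, zero_add]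
  nlinarith

/-- walk on the fast lane -/
theorem gam_dist {q q' : ℝ} (hq : 0 ≤ q) (hq1 : q ≤ q0) (hq' : 0 ≤ q') (hq1' : q' ≤ q0) :
    Adm4 (gam q) (gam q') |q - q'| := by
  refine Or.inr ⟨q, q', 0, 0, ⟨hq, hq1⟩, ⟨hq', hq1'⟩, Adm3.refl _, Adm3.refl _, by linarith⟩

theorem gamX_dist (q q' : ℝ) : dist (gamX q) (gamX q') ≤ |q - q'| := by
  unfold gamX
  refine (mkc_dist_le _ _ (gam_dist (clamp_q q).1 (clamp_q q).2 (clamp_q q').1 (clamp_q q').2)).trans ?_
  calc |max 0 (min q q0) - max 0 (min q' q0)| ≤ |min q q0 - min q' q0| :=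
        abs_max_le _ _ _
    _ ≤ _ := abs_min_le _ _ _

theorem gamX_pth : Pth gamX := fun s t _ _ => gamX_dist s t

theorem gamX_P {q : ℝ} (hq : 0 ≤ q) (hq1 : q ≤ q0) : (gamX q).P = gam q := by
  show gam (max 0 (min q q0)) = gam q
  rw [min_eq_left hq1, max_eq_right hq]

theorem gamX_cont : Continuous gamX := by
  have : LipschitzWith 1 gamX := LipschitzWith.of_dist_le_mul (by
    intro x y; rw [NNReal.coe_one, one_mul, Real.dist_eq]; exact gamX_dist x y)
  exact this.continuous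

theorem GamS_compact : IsCompact GamS := isCompact_Icc.image gamX_cont

theorem GamS_nonempty : GamS.Nonempty := ⟨gamX 0, 0, ⟨le_rfl, by unfold q0; norm_num⟩, rfl⟩

/-- touching the fast lane -/
theorem touch {x : X} (h : Metric.infDist x GamS = 0) :
    ∃ q, 0 ≤ q ∧ q ≤ q0 ∧ dist x (gamX q) = 0 := by
  obtain ⟨y, ⟨q, hq, rfl⟩, h2⟩ := GamS_compact.exists_infDist_eq_dist GamS_nonempty x
  exact ⟨q, hq.1, hq.2, by rw [← h2, h]⟩

theorem infDist_le_gam (x : X) {q : ℝ} (hq : 0 ≤ q) (hq1 : q ≤ q0) :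
    Metric.infDist x GamS ≤ dist x (gamX q) :=
  Metric.infDist_le_dist_of_mem ⟨q, ⟨hq, hq1⟩, rfl⟩

theorem Pth.cont {f : ℝ → X} (hf : Pth f) : ContinuousOn f (Set.Ici 0) := by
  have : LipschitzOnWith 1 f (Set.Ici 0) := LipschitzOnWith.of_dist_le_mul (by
    intro x hx y hy; rw [NNReal.coe_one, one_mul, Real.dist_eq]; exact hf x y hx hy)
  exact this.continuousOn

/-- potentials along paths -/
theorem Pth.pot {f : ℝ → X} (hf : Pth f) {φ : X → ℝ} (h : ∀ x y, |φ x - φ y| ≤ dist x y)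
    {s t : ℝ} (hs : 0 ≤ s) (ht : 0 ≤ t) : |φ (f s) - φ (f t)| ≤ |s - t| :=
  (h _ _).trans (hf s t hs ht)

end Pool.Agent.N91.LC
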