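import Pool.Agent.N91.LC.Adm

set_option autoImplicit false

namespace Pool.Agent.N91.LC

open Real

/-! ### heights on rays -/

theorem hh_nonneg (n : ℕ) {s : ℝ} (hs : 0 ≤ s) : 0 ≤ hh n s := by
  unfold hh
  apply le_min hs
  positivity

theorem hh_zero (n : ℕ) : hh n 0 = 0 := by
  unfold hh
  apply min_eq_left; positivity

theorem hh_pos (n : ℕ) {s : ℝ} (hs : 0 < s) : 0 < hh n s := by
  unfold hh
  apply lt_min hs
  positivity

theorem hh_lip (n : ℕ) {s s' : ℝ} (hs : 0 ≤ s) (hs' : 0 ≤ s') : hh n s ≤ hh n s' + |s - s'| := by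
  unfold hh
  rw [← min_add_add_right]
  apply min_le_min
  · linarith [le_abs_self (s - s')]
  · have hk : (0:ℝ) < (1 / 2) ^ n := by positivity
    have hk1 : ((1:ℝ) / 2) ^ n ≤ 1 := pow_le_one₀ (by norm_num) (by norm_num)
    have e : (1 / 2 : ℝ) ^ n / (1 + s) - (1 / 2) ^ n / (1 + s') =
        ((1 / 2 : ℝ) ^ n / ((1 + s) * (1 + s'))) * (s' - s) := by
      field_simp
      ring
    have f : ((1 / 2 : ℝ) ^ n / ((1 + s) * (1 + s'))) ≤ 1 := by
      rw [div_le_one (by positivity)]
      nlinarith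
    have f0 : 0 ≤ ((1 / 2 : ℝ) ^ n / ((1 + s) * (1 + s'))) := by positivity
    have g : ((1 / 2 : ℝ) ^ n / ((1 + s) * (1 + s'))) * (s' - s) ≤ |s - s'| := by
      calc ((1 / 2 : ℝ) ^ n / ((1 + s) * (1 + s'))) * (s' - s)
          ≤ ((1 / 2 : ℝ) ^ n / ((1 + s) * (1 + s'))) * |s - s'| := by
            apply mul_le_mul_of_nonneg_left _ f0
            rw [abs_sub_comm]; exact le_abs_self _
        _ ≤ 1 * |s - s'| := by gcongr
        _ = _ := one_mul _
    linarith

/-! ### the relation on X -/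

/-- height of a point of X over the comb -/
noncomputable def X.h (x : X) : ℝ := hh x.n x.s

theorem X.h_nonneg (x : X) : 0 ≤ x.h := hh_nonneg x.n x.hs

theorem AdmX.refl (x : X) : AdmX x x 0 := by
  rcases x.hr with h | h
  · right
    rw [h, hh_zero]
    simpa using Adm4.refl x.P
  · left
    exact ⟨h, h, rfl, by simp⟩

theorem AdmX.symm {x y : X} {c : ℝ} (h : AdmX x y c) : AdmX y x c := by
  rcases h with ⟨h1, h2, h3, h4⟩ | h
  · exact Or.inl ⟨h2, h1, h3.symm, by rw [abs_sub_comm]; exact h4⟩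
  · right
    have := h.symm
    rw [show c - hh x.n x.s - hh y.n y.s = c - hh y.n y.s - hh x.n x.s by ring] at this
    exact this

theorem AdmX.mono {x y : X} {c c' : ℝ} (h : AdmX x y c) (hc : c ≤ c') : AdmX x y c' := by
  rcases h with ⟨h1, h2, h3, h4⟩ | h
  · exact Or.inl ⟨h1, h2, h3, h4.trans hc⟩
  · exact Or.inr (h.mono x.ok.g0 y.ok.g0 (by linarith))

theorem AdmX.nonneg {x y : X} {c : ℝ} (h : AdmX x y c) : 0 ≤ c := by
  rcases h with ⟨h1, h2, h3, h4⟩ | h
  · exact (abs_nonneg _).trans h4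
  · have := h.nonneg x.ok y.ok
    linarith [hh_nonneg x.n x.hs, hh_nonneg y.n y.hs]

theorem AdmX.tri {x y z : X} {c c' : ℝ} (h : AdmX x y c) (h' : AdmX y z c') :
    AdmX x z (c + c') := by
  rcases h with ⟨h1, h2, h3, h4⟩ | h <;> rcases h' with ⟨k1, k2, k3, k4⟩ | h'
  · exact Or.inl ⟨h1, k2, h3.trans k3, (abs_sub_le _ y.s _).trans (add_le_add h4 k4)⟩
  · right
    have e : x.P = y.P := by rw [h1, h2, h3]
    rw [e]
    refine h'.mono y.ok.g0 z.ok.g0 ?_
    have := hh_lip x.n x.hs y.hs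
    rw [h3] at this ⊢
    linarith
  · right
    have e : y.P = z.P := by rw [k1, k2, k3]
    rw [← e]
    refine h.mono x.ok.g0 y.ok.g0 ?_
    have := hh_lip z.n z.hs y.hs
    rw [abs_sub_comm] at this
    rw [k3]
    linarith
  · right
    have := h.tri x.ok y.ok z.ok h'
    refine this.mono x.ok.g0 z.ok.g0 ?_
    linarith [hh_nonneg y.n y.hs]

theorem AdmX.exists (x y : X) : ∃ c, AdmX x y c := by
  refine ⟨(sd x.P y.P + log (A x.P.g) + log (A y.P.g)) + hh x.n x.s + hh y.n y.s, ?_⟩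
  right
  left
  right
  left
  unfold Hub
  linarith

noncomputable instance : Dist X := ⟨fun x y => sInf {c | AdmX x y c}⟩

theorem X.dist_def (x y : X) : dist x y = sInf {c | AdmX x y c} := rfl

theorem AdmX.bdd (x y : X) : BddBelow {c | AdmX x y c} := ⟨0, fun _ h => AdmX.nonneg h⟩

theorem AdmX.dist_le {x y : X} {c : ℝ} (h : AdmX x y c) : dist x y ≤ c :=
  csInf_le (AdmX.bdd x y) h

theorem AdmX.of_dist_lt {x y : X} {c : ℝ} (h : dist x y < c) : AdmX x y c := by
  obtain ⟨c', h1, h2⟩ := exists_lt_of_csInf_lt (AdmX.exists x y) h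
  exact AdmX.mono h1 h2.le

noncomputable instance : PseudoMetricSpace X where
  dist_self x := by
    apply le_antisymm (AdmX.refl x).dist_le
    exact le_csInf (AdmX.exists x x) (fun _ h => AdmX.nonneg h)
  dist_comm x y := by
    rw [X.dist_def, X.dist_def]
    congr 1
    ext c
    exact ⟨fun h => h.symm, fun h => h.symm⟩
  dist_triangle x y z := by
    apply le_of_forall_pos_le_add
    intro ε hε
    have h1 : AdmX x y (dist x y + ε / 2) := AdmX.of_dist_lt (by linarith)
    have h2 : AdmX y z (dist y z + ε / 2) := AdmX.of_dist_lt (by linarith)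
    have := (h1.tri h2).dist_le
    linarith

/-- general principle: a function that is bounded by c under the relation is 1-Lipschitz -/
theorem X.pot {φ : X → ℝ} (h : ∀ x y c, AdmX x y c → φ x ≤ φ y + c) (x y : X) :
    |φ x - φ y| ≤ dist x y := by
  have key : ∀ x y : X, φ x - φ y ≤ dist x y := by
    intro x y
    apply le_of_forall_pos_le_add
    intro ε hε
    have := h x y _ (AdmX.of_dist_lt (show dist x y < dist x y + ε by linarith))
    linarith
  rw [abs_le]
  constructor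
  · have := key y x; rw [dist_comm] at this; linarith
  · exact key x y

/-- local version -/
theorem X.pot_local {φ : X → ℝ} {x y : X} {r : ℝ} (h : ∀ c, c < r → AdmX x y c → |φ x - φ y| ≤ c)
    (hd : dist x y < r) : |φ x - φ y| ≤ dist x y := by
  apply le_of_forall_pos_le_add
  intro ε hε
  by_cases hr : dist x y + ε < r
  · exact h _ hr (AdmX.of_dist_lt (by linarith))
  · push Not at hr
    have h1 : (dist x y + r) / 2 < r := by linarith
    have := h _ h1 (AdmX.of_dist_lt (by linarith))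
    linarith

/-- potentials through the comb point -/
theorem X.pot4 {φ : Pt → ℝ} (h : ∀ x y c, x.ok → y.ok → Adm4 x y c → φ x ≤ φ y + c) (x y : X) :
    |φ x.P - φ y.P| ≤ dist x y := by
  apply X.pot (φ := fun x => φ x.P)
  intro x y c hc
  rcases hc with ⟨h1, h2, h3, h4⟩ | hc
  · have e : x.P = y.P := by rw [h1, h2, h3]
    show φ x.P ≤ φ y.P + c
    rw [e]
    linarith [abs_nonneg (x.s - y.s)]
  · have := h _ _ _ x.ok y.ok hc
    linarith [hh_nonneg x.n x.hs, hh_nonneg y.n y.hs]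

theorem X.EE_lip (x y : X) : |EE x.P - EE y.P| ≤ dist x y :=
  X.pot4 (fun _ _ _ hx hy h => h.EEle hx hy) x y

theorem X.QQ_lip (x y : X) : |QQ x.P - QQ y.P| ≤ dist x y :=
  X.pot4 (fun _ _ _ hx hy h => h.QQle hx hy) x y

/-- planar distance is controlled by the distance -/
theorem X.sd_le (x y : X) : sd x.P y.P ≤ dist x y := by
  apply le_of_forall_pos_le_add
  intro ε hε
  have h : AdmX x y (dist x y + ε) := AdmX.of_dist_lt (by linarith)
  rcases h with ⟨h1, h2, h3, h4⟩ | hc
  · have e : x.P = y.P := by rw [h1, h2, h3]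
    rw [e, sd_self]
    linarith [dist_nonneg (x := x) (y := y)]
  · have := hc.sd_le x.ok y.ok
    linarith [hh_nonneg x.n x.hs, hh_nonneg y.n y.hs]

theorem X.b_lip (x y : X) : |x.P.b - y.P.b| ≤ dist x y := by
  have := X.sd_le x y; unfold sd at this; linarith [abs_nonneg (x.P.v - y.P.v)]

theorem X.v_lip (x y : X) : |x.P.v - y.P.v| ≤ dist x y := by
  have := X.sd_le x y; unfold sd at this; linarith [abs_nonneg (x.P.b - y.P.b)]

/-- the height over the comb is 1-Lipschitz -/
theorem X.h_lip (x y : X) : |x.h - y.h| ≤ dist x y := by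
  apply X.pot
  intro x y c hc
  rcases hc with ⟨h1, h2, h3, h4⟩ | hc
  · unfold X.h
    have := hh_lip x.n x.hs y.hs
    rw [h3] at this ⊢
    linarith
  · have := hc.nonneg x.ok y.ok
    unfold X.h
    linarith [hh_nonneg x.n x.hs, hh_nonneg y.n y.hs]

/-- local structure of the rays -/
theorem X.ray_local {x y : X} (hd : dist x y < x.h) :
    x.P = en x.n ∧ y.P = en x.n ∧ y.n = x.n ∧ |x.s - y.s| ≤ dist x y := by
  have h0 : ∀ c, c < x.h → AdmX x y c → (x.P = en x.n ∧ y.P = en y.n ∧ x.n = y.n ∧ |x.s - y.s| ≤ c) := by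
    intro c hc h
    rcases h with h | h
    · exact h
    · exfalso
      have := h.nonneg x.ok y.ok
      unfold X.h at hc
      linarith [hh_nonneg y.n y.hs]
  have h1 : |x.s - y.s| ≤ dist x y :=
    X.pot_local (φ := X.s) (r := x.h) (fun c hc h => (h0 c hc h).2.2.2) hd
  obtain ⟨h2, h3, h4, -⟩ := h0 _ (show (dist x y + x.h) / 2 < x.h by linarith)
    (AdmX.of_dist_lt (by linarith))
  exact ⟨h2, by rw [h4]; exact h3, h4.symm, h1⟩

/-! ### constructors -/

/-- comb point -/
def mkc (P : Pt) (h : P.ok) : X := ⟨P, 0, 0, h, le_rfl, Or.inl rfl⟩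

/-- ray point -/
noncomputable def ray (n : ℕ) (s : ℝ) : X := ⟨en n, n, max s 0, en_ok n, le_max_right _ _, Or.inr rfl⟩

theorem mkc_dist_le {P P' : Pt} (h : P.ok) (h' : P'.ok) {c : ℝ} (hc : Adm4 P P' c) :
    dist (mkc P h) (mkc P' h') ≤ c := by
  apply AdmX.dist_le
  right
  show Adm4 P P' (c - hh 0 0 - hh 0 0)
  rw [hh_zero]; simpa using hc

theorem ray_dist_le (n : ℕ) {s s' : ℝ} (hs : 0 ≤ s) (hs' : 0 ≤ s') :
    dist (ray n s) (ray n s') ≤ |s - s'| := by
  apply AdmX.dist_le
  left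
  refine ⟨rfl, rfl, rfl, ?_⟩
  show |max s 0 - max s' 0| ≤ _
  rw [max_eq_left hs, max_eq_left hs']

theorem ray_zero_dist (n : ℕ) : dist (mkc (en n) (en_ok n)) (ray n 0) = 0 := by
  apply le_antisymm _ dist_nonneg
  apply AdmX.dist_le
  right
  show Adm4 (en n) (en n) (0 - hh 0 0 - hh n (max 0 0))
  rw [max_self, hh_zero, hh_zero]
  simpa using Adm4.refl (en n)

/-- the same comb point with other labels -/
theorem X.eq_of_h_zero {x : X} (hx : x.h = 0) : dist x (mkc x.P x.ok) = 0 := by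
  apply le_antisymm _ dist_nonneg
  apply AdmX.dist_le
  right
  show Adm4 x.P x.P (0 - x.h - hh 0 0)
  rw [hx, hh_zero]
  simpa using Adm4.refl x.P

/-- dist to the base point -/
theorem X.dist_base (x : X) : dist x (mkc x.P x.ok) ≤ x.h := by
  apply AdmX.dist_le
  right
  show Adm4 x.P x.P (x.h - hh x.n x.s - hh 0 0)
  unfold X.h
  rw [hh_zero]
  simpa using Adm4.refl x.P

theorem X.h_eq_zero_iff (x : X) : x.h = 0 ↔ x.s = 0 := by
  unfold X.h
  constructor
  · intro h
    by_contra hs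
    exact (hh_pos x.n (lt_of_le_of_ne x.hs (Ne.symm hs))).ne' h
  · intro h; rw [h, hh_zero]

end Pool.Agent.N91.LC
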