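import Pool.Agent.N91.LC.Space

set_option autoImplicit false

/-!
Statements of the parts of project LC. Everything is a Prop (no proofs here), except elementary constructors.
-/

namespace Pool.Agent.N91.LC

open Real

/-- 1-Lipschitz paths, time in [0, infinity) -/
def Pth (c : ℝ → X) : Prop := ∀ s t, 0 ≤ s → 0 ≤ t → dist (c s) (c t) ≤ |s - t|

theorem y0_ok : (⟨0, 0, GG⟩ : Pt).ok :=
  ⟨le_rfl, ell_pos.le, le_rfl, p0_pos.le, GG_pos.le, le_rfl, Or.inl rfl⟩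

/-- start of the Christian: foot of the limit tooth, top level -/
noncomputable def y0 : X := mkc ⟨0, 0, GG⟩ y0_ok

/-- the comb point (b, v, g) (junk value y0 if it is not one) -/
noncomputable def pt (b v g : ℝ) : X :=
  open Classical in if h : (⟨b, v, g⟩ : Pt).ok then mkc ⟨b, v, g⟩ h else y0

theorem pt_eq {b v g : ℝ} (h : (⟨b, v, g⟩ : Pt).ok) : pt b v g = mkc ⟨b, v, g⟩ h := by
  unfold pt; rw [dif_pos h]

theorem clamp_q (q : ℝ) : 0 ≤ max 0 (min q q0) ∧ max 0 (min q q0) ≤ q0 :=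
  ⟨le_max_left _ _, max_le (by unfold q0; norm_num) (min_le_right _ _)⟩

/-- fast lane in X -/
noncomputable def gamX (q : ℝ) : X :=
  mkc (gam (max 0 (min q q0))) (gam_ok (clamp_q q).1 (clamp_q q).2)

/-- start of the Lion -/
noncomputable def x0 : X := gamX 0

/-- the fast lane as a set -/
def GamS : Set X := gamX '' Set.Icc 0 q0

/-- Lion strategies (Christian path to Lion path) without lookahead -/
def LionStrat (F : (ℝ → X) → (ℝ → X)) : Prop :=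
  (∀ c, Pth c → dist (c 0) y0 = 0 → Pth (F c) ∧ dist (F c 0) x0 = 0) ∧
  (∀ c c', Pth c → dist (c 0) y0 = 0 → Pth c' → dist (c' 0) y0 = 0 → ∀ t, 0 ≤ t →
    (∀ s, 0 ≤ s → s ≤ t → dist (c s) (c' s) = 0) → ∀ s, 0 ≤ s → s ≤ t → F c s = F c' s)

/-- Christian strategies (Lion path to Christian path) without lookahead -/
def ChrStrat (F : (ℝ → X) → (ℝ → X)) : Prop :=
  (∀ l, Pth l → dist (l 0) x0 = 0 → Pth (F l) ∧ dist (F l 0) y0 = 0) ∧
  (∀ l l', Pth l → dist (l 0) x0 = 0 → Pth l' → dist (l' 0) x0 = 0 → ∀ t, 0 ≤ t →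
    (∀ s, 0 ≤ s → s ≤ t → dist (l s) (l' s) = 0) → ∀ s, 0 ≤ s → s ≤ t → F l s = F l' s)

def S_CW : Prop := ∀ F, LionStrat F →
  ∃ c, Pth c ∧ dist (c 0) y0 = 0 ∧ ∀ t, 0 ≤ t → dist (F c t) (c t) ≠ 0

def S_LW : Prop := ∀ F, ChrStrat F →
  ∃ l, Pth l ∧ dist (l 0) x0 = 0 ∧ ∃ t, 0 ≤ t ∧ dist (F l t) (l t) = 0

/-! ### interface lemmas -/

/-- Fn is locally 1-Lipschitz, at every scale below 2/3 pp n -/
def S_FN : Prop := ∀ (n : ℕ) (x y : X), dist x y < 2 / 3 * pp n → |Fn n x.P - Fn n y.P| ≤ dist x y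

/-- values on the fast lane -/
def S_FNG : Prop := ∀ (n : ℕ) (q : ℝ), 0 ≤ q → q ≤ q0 → RR + pp n - q / 3 ≤ Fn n (gam q)

/-- hence Fn is 1-Lipschitz along paths -/
def S_FNP : Prop := ∀ (n : ℕ) (f : ℝ → X), Pth f → ∀ s t, 0 ≤ s → 0 ≤ t →
  |Fn n (f s).P - Fn n (f t).P| ≤ |s - t|

/-- off the exits and the fast lane the relation is a strip or hub relation locally -/
def S_LOC1 : Prop := ∀ (x y : X) (c : ℝ), dist x y < c → c < EE x.P → c < Metric.infDist x GamS →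
  Adm1 x.P y.P c

/-- hence log g is locally 1-Lipschitz off the exits and the fast lane, for g > 0 -/
def S_LOC2 : Prop := ∀ (x y : X), dist x y < EE x.P → dist x y < Metric.infDist x GamS →
  dist x y < log (A x.P.g) →
  x.P.g ≤ exp (dist x y) * y.P.g ∧ y.P.g ≤ exp (dist x y) * x.P.g

/-- log A(g) is locally 1-Lipschitz off the exits -/
def S_LA : Prop := ∀ (x y : X), dist x y < EE x.P → dist x y < 1 / 1000 →
  |log (A x.P.g) - log (A y.P.g)| ≤ dist x y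

/-- two-point estimate, possibly through the fast lane -/
def S_TP : Prop := ∀ (x y : X) (c : ℝ), dist x y < c → c < EE x.P → c < EE y.P →
  c < log (A x.P.g) → c < log (A y.P.g) → c < 1 / 1000 →
  (sd x.P y.P ≤ (exp c - 1) / (1 + (min x.P.g y.P.g) ^ 2 * exp (-c))) ∧
  (∀ m : ℝ, 0 < m → m ≤ min x.P.g y.P.g →
    |log x.P.g - log y.P.g| ≤ (1 + exp (2 * c) / m ^ 2) * c)

/-- the vertical coordinate along a path that avoids exits and (in the open interval) the fast lane -/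
def S_GPATH : Prop := ∀ f : ℝ → X, Pth f → ∀ u v, 0 ≤ u → u < v →
  (∀ t, u ≤ t → t ≤ v → 0 < EE (f t).P) →
  (∀ t, u < t → t < v → 0 < Metric.infDist (f t) GamS) →
  (f v).P.g ≤ exp (v - u) * (f u).P.g ∧ (f u).P.g ≤ exp (v - u) * (f v).P.g

/-! ### explicit paths of the Christian -/

/-- walk up the spine at top level -/
noncomputable def wk (t : ℝ) : X := pt 0 (min (2 / 3 * t) p0) GG

/-- time from the foot of tooth n to the exit of tooth j, at the best -/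
noncomputable def TT (n j : ℕ) : ℝ := th GG (ell + |pp n - pp j|)

/-- optimal run to the exit of tooth j, then along the ray -/
def S_RUN : Prop := ∀ n j : ℕ, ∃ r : ℝ → X, Pth r ∧ dist (r 0) (pt 0 (pp n) GG) = 0 ∧
  (∀ t, 0 ≤ t → t ≤ TT n j → Fn j (r t).P ≤ TT n j - t) ∧
  (∀ t, TT n j ≤ t → dist (r t) (ray j (t - TT n j)) = 0)

/-! ### the Christian wins against a Lion strategy -/

/-- the commit claim for the Lion -/
def S_CLAIM : Prop := ∀ f : ℝ → X, Pth f → dist (f 0) x0 = 0 →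
  ∃ n : ℕ, RR < Fn n (f (3 / 2 * pp n)).P ∨ (f (3 / 2 * pp n)).P.g = 0

/-- the Lion stays behind in the run and in the ray -/
def S_BEHIND : Prop := ∀ f : ℝ → X, Pth f → ∀ (t1 T : ℝ) (j : ℕ), 0 ≤ t1 → 0 ≤ T →
  T < Fn j (f t1).P →
  (∀ t, t1 ≤ t → t ≤ t1 + T → T - (t - t1) < Fn j (f t).P) ∧
  (∀ t, t1 + T ≤ t → dist (f t) (ray j (t - (t1 + T))) ≠ 0)

/-- while the Christian waits, a Lion on level 0 stays there -/
def S_WAIT : Prop := ∀ (n : ℕ) (f : ℝ → X), Pth f → ∀ t1 t2, 0 ≤ t1 → t1 ≤ t2 →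
  (f t1).P.g = 0 →
  (∀ t, t1 ≤ t → t ≤ t2 → Fn n (f t).P ≤ RR ∧ Fn (n + 1) (f t).P ≤ TT n (n + 1)) →
  ∀ t, t1 ≤ t → t ≤ t2 → (f t).P.g = 0 ∧ 0 < EE (f t).P

/-! ### the Lion wins against a Christian strategy -/

/-- window lemma -/
def S_WINDOW : Prop := ∀ f : ℝ → X, Pth f → dist (f 0) y0 = 0 →
  ∃ t, 0 < t ∧ t ≤ q0 ∧ ∀ m : ℕ, RR + pp m - 0.29 * t < Fn m (f t).P

/-- lower bound for the Christian's level before he reaches an exit -/
def S_CLOG : Prop := ∀ f : ℝ → X, Pth f → dist (f 0) y0 = 0 → ∀ T, 0 ≤ T → T ≤ 1 →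
  (∀ t, 0 ≤ t → t ≤ T → 0 < EE (f t).P) → ∀ t, 0 ≤ t → t ≤ T → GG * exp (-t) ≤ (f t).P.g

/-- v is constant while b > 0 -/
def S_VCONST : Prop := ∀ f : ℝ → X, Pth f → ∀ u v, 0 ≤ u → u ≤ v →
  (∀ t, u ≤ t → t ≤ v → 0 < (f t).P.b) → (f u).P.v = (f v).P.v

/-- the situation after phase 1: equal planar position, Lion at a lower level, Christian not at an exit -/
def Aligned (F : (ℝ → X) → (ℝ → X)) (l : ℝ → X) (ta b v gw gC : ℝ) : Prop :=
  Pth l ∧ dist (l 0) x0 = 0 ∧ 0 ≤ ta ∧ l ta = pt b v gw ∧ (F l ta).P = ⟨b, v, gC⟩ ∧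
    0 < gw ∧ gw < gC ∧ b < ell

def S_PHASE1 : Prop := ∀ F, ChrStrat F → ∃ l ta b v gw gC, Aligned F l ta b v gw gC

def S_CHASE : Prop := ∀ F, ChrStrat F → ∀ l ta b v gw gC, Aligned F l ta b v gw gC →
  ∃ l', Pth l' ∧ dist (l' 0) x0 = 0 ∧ ∃ t, 0 ≤ t ∧ dist (F l' t) (l' t) = 0

end Pool.Agent.N91.LC
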