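import Pool.Agent.N91.LC.Path

set_option autoImplicit false

namespace Pool.Agent.N91.LC

open Real

theorem strip_sd {x y : Pt} {c k : ℝ} (h : Strip x y c) (hk : 0 ≤ k) (hk' : k ≤ x.g * y.g) :
    sd x y ≤ (exp c - 1) / (1 + k) := by
  rw [le_div_iff₀ (by linarith)]
  have h1 := h.base
  have h2 := sd_nonneg x y
  have h3 : sd x y ≤ exp (sd x y) - 1 := by have := add_one_le_exp (sd x y); linarith
  have h4 : sd x y * (1 + k) ≤ (exp (sd x y) - 1) * (1 + x.g * y.g) :=
    mul_le_mul h3 (by linarith) (by linarith) (by linarith)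
  linarith

theorem strip_log {x y : Pt} {c : ℝ} (h : Strip x y c) (hx : 0 < x.g) (hy : 0 < y.g) :
    |log x.g - log y.g| ≤ c := by
  obtain ⟨h1, h2, -⟩ := h
  have e1 := log_le_log hx h1
  have e2 := log_le_log hy h2
  rw [log_mul (exp_pos _).ne' hy.ne', log_exp] at e1
  rw [log_mul (exp_pos _).ne' hx.ne', log_exp] at e2
  rw [abs_le]; constructor <;> linarith

theorem gam_log {q q' r : ℝ} (hq' : 0 ≤ q') (h : q' ≤ q) (hr : 0 < r) (hr' : r ≤ (gam q').g) :
    |log (gam q).g - log (gam q').g| ≤ (1 + 1 / r ^ 2) * (q - q') := by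
  have e1 := gam_g_sq (hq'.trans h)
  have e2 := gam_g_sq hq'
  have p2 : 0 < (gam q').g := hr.trans_le hr'
  set a := (gam q').g ^ 2 with ha
  have ha0 : 0 < a := by positivity
  have hexp : exp (2 * q') = 1 + a := by linarith
  have hsq : exp (2 * q) = (1 + a) * exp (2 * (q - q')) := by
    rw [← hexp, ← exp_add]; congr 1; ring
  have hmono : a ≤ (gam q).g ^ 2 := by
    rw [e1, e2]
    have : exp (2 * q') ≤ exp (2 * q) := exp_le_exp.2 (by linarith)
    linarith
  have p1 : 0 < (gam q).g := by
    rcases (gam_g_nonneg q).lt_or_eq with h' | h'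
    · exact h'
    · rw [← h'] at hmono; norm_num at hmono; linarith
  have hb := bern (k := 1 / a) (s := 2 * (q - q')) (by positivity)
  have h3 : (gam q).g ^ 2 ≤ a * exp ((1 + 1 / a) * (2 * (q - q'))) := by
    rw [e1, hsq]
    have : a * ((1 + 1 / a) * exp (2 * (q - q')) - 1 / a) ≤
        a * exp ((1 + 1 / a) * (2 * (q - q'))) := by gcongr
    have e : a * ((1 + 1 / a) * exp (2 * (q - q')) - 1 / a) = (1 + a) * exp (2 * (q - q')) - 1 := by
      field_simp; ring
    linarith
  have h4 := log_le_log (by positivity) h3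
  rw [log_mul ha0.ne' (exp_pos _).ne', log_exp, log_pow, ha, log_pow] at h4
  have h5 := log_le_log (by positivity) hmono
  rw [ha, log_pow, log_pow] at h5
  push_cast at h4 h5
  have h6 : 1 / a ≤ 1 / r ^ 2 := by
    apply one_div_le_one_div_of_le (by positivity)
    rw [ha]; exact pow_le_pow_left₀ hr.le hr' 2
  have h7 : (1 + 1 / a) * (q - q') ≤ (1 + 1 / r ^ 2) * (q - q') := by
    apply mul_le_mul_of_nonneg_right (by linarith) (by linarith)
  rw [← ha] at h4
  rw [abs_le]
  constructor
  · have : 0 ≤ (1 + 1 / r ^ 2) * (q - q') := mul_nonneg (by positivity) (by linarith)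
    linarith
  · linarith

theorem tp : S_TP := by
  intro x y c hd hEx hEy hAx hAy hc
  have hc0 : 0 ≤ c := dist_nonneg.trans hd.le
  have hEn : ∀ n, EE (en n) = 0 := by
    intro n
    show th 0 (ell - ell) = 0
    rw [sub_self, th_zero_right]
  have h4 : Adm4 x.P y.P c := by
    rcases AdmX.of_dist_lt hd with ⟨h1, -, -, -⟩ | h
    · exfalso; rw [h1, hEn] at hEx; linarith
    · exact h.mono x.ok.g0 y.ok.g0 (by linarith [hh_nonneg x.n x.hs, hh_nonneg y.n y.hs])
  -- positivity of levels
  have pos : ∀ z : Pt, z.ok → c < log (A z.g) → 0 < z.g := by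
    intro z hz h
    rcases hz.g0.lt_or_eq with h' | h'
    · exact h'
    · rw [← h', log_A_zero] at h; linarith
  have px := pos x.P x.ok hAx
  have py := pos y.P y.ok hAy
  set m0 := min x.P.g y.P.g with hm0
  have m0p : 0 < m0 := lt_min px py
  have m0x : m0 ≤ x.P.g := min_le_left _ _
  have m0y : m0 ≤ y.P.g := min_le_right _ _
  have hGG := GG_sq
  have hm2 : m0 ^ 2 ≤ 1 / 2 := by
    have := x.ok.g1
    rw [← hGG]; exact pow_le_pow_left₀ m0p.le (m0x.trans this) 2
  have hek : exp (-c) ≤ 1 := exp_le_one_iff.2 (by linarith)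
  set k := m0 ^ 2 * exp (-c) with hk
  have hk0 : 0 < k := by positivity
  have hk1 : k ≤ 1 / 2 := by rw [hk]; nlinarith [exp_pos (-c), sq_nonneg m0]
  rcases h4 with h3 | ⟨q, q', c1, c2, hq, hq', h1, h2, h3⟩
  · rcases h3 with h | h | h
    · refine ⟨strip_sd h hk0.le ?_, ?_⟩
      · rw [hk]
        calc m0 ^ 2 * exp (-c) ≤ m0 ^ 2 * 1 := by gcongr
          _ = m0 * m0 := by ring
          _ ≤ _ := by gcongr
      · intro m hm _
        refine (strip_log h px py).trans ?_
        have : 0 ≤ exp (2 * c) / m ^ 2 * c := by positivity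
        linarith
    · exfalso; unfold Hub at h; linarith [sd_nonneg x.P y.P, log_A_nonneg y.P.g]
    · exfalso; unfold Exit at h; linarith [abs_nonneg (x.P.v - y.P.v)]
  · have og := gam_ok hq.1 hq.2
    have og' := gam_ok hq'.1 hq'.2
    have n1 := h1.nonneg x.ok og
    have n2 := h2.nonneg og' y.ok
    have n3 := abs_nonneg (q - q')
    have s1 : Strip x.P (gam q) c1 := by
      rcases h1 with h | h | h
      · exact h
      · exfalso; unfold Hub at h; linarith [sd_nonneg x.P (gam q), log_A_nonneg (gam q).g]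
      · exfalso; unfold Exit at h; linarith [abs_nonneg (x.P.v - (gam q).v), EE_nonneg og]
    have s2 : Strip (gam q') y.P c2 := by
      rcases h2 with h | h | h
      · exact h
      · exfalso; unfold Hub at h; linarith [sd_nonneg (gam q') y.P, log_A_nonneg (gam q').g]
      · exfalso; unfold Exit at h; linarith [abs_nonneg ((gam q').v - y.P.v), EE_nonneg og']
    have lo1 : x.P.g * exp (-c) ≤ (gam q).g := by
      have h := s1.1
      calc x.P.g * exp (-c) ≤ (exp c1 * (gam q).g) * exp (-c) := by gcongr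
        _ = exp (c1 - c) * (gam q).g := by rw [sub_eq_add_neg, exp_add]; ring
        _ ≤ 1 * (gam q).g := by
            apply mul_le_mul_of_nonneg_right _ og.g0
            exact exp_le_one_iff.2 (by linarith)
        _ = _ := one_mul _
    have lo2 : y.P.g * exp (-c) ≤ (gam q').g := by
      have h := s2.2.1
      calc y.P.g * exp (-c) ≤ (exp c2 * (gam q').g) * exp (-c) := by gcongr
        _ = exp (c2 - c) * (gam q').g := by rw [sub_eq_add_neg, exp_add]; ring
        _ ≤ 1 * (gam q').g := by
            apply mul_le_mul_of_nonneg_right _ og'.g0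
            exact exp_le_one_iff.2 (by linarith)
        _ = _ := one_mul _
    have ex0 := exp_pos (-c)
    have pg : 0 < (gam q).g := lt_of_lt_of_le (by positivity) lo1
    have pg' : 0 < (gam q').g := lt_of_lt_of_le (by positivity) lo2
    have k1 : k ≤ x.P.g * (gam q).g := by
      calc k = m0 * (m0 * exp (-c)) := by rw [hk]; ring
        _ ≤ x.P.g * (x.P.g * exp (-c)) := by gcongr
        _ ≤ _ := by gcongr
    have k2 : k ≤ (gam q').g * y.P.g := by
      calc k = (m0 * exp (-c)) * m0 := by rw [hk]; ring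
        _ ≤ (y.P.g * exp (-c)) * y.P.g := by gcongr
        _ ≤ _ := by gcongr
    have d1 := strip_sd s1 hk0.le k1
    have d2 := strip_sd s2 hk0.le k2
    have d3 : sd (gam q) (gam q') ≤ (exp |q - q'| - 1) / (1 + k) := by
      rw [gam_sd, le_div_iff₀ (by linarith)]
      have := add_one_le_exp |q - q'|
      nlinarith
    refine ⟨?_, ?_⟩
    · have t1 := sd_tri x.P (gam q) y.P
      have t2 := sd_tri (gam q) (gam q') y.P
      have t3 : (exp c1 - 1) + (exp |q - q'| - 1) + (exp c2 - 1) ≤ exp c - 1 := by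
        have a1 := one_le_exp n1
        have a2 := one_le_exp n2
        have a3 := one_le_exp n3
        have a4 : exp c1 * exp |q - q'| * exp c2 ≤ exp c := by
          rw [← exp_add, ← exp_add]; exact exp_le_exp.2 h3
        nlinarith [mul_nonneg (sub_nonneg.2 a1) (sub_nonneg.2 a3),
          mul_nonneg (sub_nonneg.2 (one_le_mul_of_one_le_of_one_le a1 a3)) (sub_nonneg.2 a2)]
      calc sd x.P y.P ≤ (exp c1 - 1) / (1 + k) + (exp |q - q'| - 1) / (1 + k) + (exp c2 - 1) / (1 + k) := by
            linarith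
        _ = ((exp c1 - 1) + (exp |q - q'| - 1) + (exp c2 - 1)) / (1 + k) := by ring
        _ ≤ _ := by gcongr
    · intro m hm hmm
      have l1 := strip_log s1 px pg
      have l2 := strip_log s2 pg' py
      have hmx : m ≤ x.P.g := hmm.trans m0x
      have hmy : m ≤ y.P.g := hmm.trans m0y
      have r1 : m * exp (-c) ≤ (gam q).g := le_trans (by gcongr) lo1
      have r2 : m * exp (-c) ≤ (gam q').g := le_trans (by gcongr) lo2
      have hr : 0 < m * exp (-c) := by positivity
      have er : 1 / (m * exp (-c)) ^ 2 = exp (2 * c) / m ^ 2 := by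
        rw [mul_pow, ← exp_nat_mul]
        have : exp (((2:ℕ):ℝ) * (-c)) = (exp (2 * c))⁻¹ := by
          rw [← exp_neg]; congr 1; push_cast; ring
        rw [this]
        field_simp
      have l3 : |log (gam q).g - log (gam q').g| ≤ (1 + exp (2 * c) / m ^ 2) * |q - q'| := by
        rw [← er]
        rcases le_total q' q with h | h
        · rw [abs_of_nonneg (sub_nonneg.2 h : 0 ≤ q - q')]
          exact gam_log hq'.1 h hr r2
        · rw [abs_sub_comm, abs_of_nonpos (sub_nonpos.2 h : q - q' ≤ 0), neg_sub]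
          exact gam_log hq.1 h hr r1
      have K0 : 0 ≤ exp (2 * c) / m ^ 2 := by positivity
      have t1 := abs_sub_le (log x.P.g) (log (gam q).g) (log y.P.g)
      have t2 := abs_sub_le (log (gam q).g) (log (gam q').g) (log y.P.g)
      have t3 : c1 + (1 + exp (2 * c) / m ^ 2) * |q - q'| + c2 ≤
          (1 + exp (2 * c) / m ^ 2) * (c1 + |q - q'| + c2) := by nlinarith
      have t4 : (1 + exp (2 * c) / m ^ 2) * (c1 + |q - q'| + c2) ≤
          (1 + exp (2 * c) / m ^ 2) * c := by gcongr
      linarith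

end Pool.Agent.N91.LC
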